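import Mathlib

/-! # Two lemmas on tensor products of abelian groups -/

set_option autoImplicit false

open scoped TensorProduct

namespace Pool.Agent.KU

/-- An abelian group without elements of finite order. -/
def TorFree (G : Type*) [AddCommGroup G] : Prop := ∀ (n : ℕ) (x : G), n ≠ 0 → n • x = 0 → x = 0

theorem TorFree.inst {G : Type*} [AddCommGroup G] (h : TorFree G) : Module.IsTorsionFree ℤ G := by
  rw [Module.isTorsionFree_iff_smul_eq_zero]
  intro n x hnx
  by_cases hn : n = 0
  · exact Or.inl hn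
  · right
    apply h n.natAbs x (Int.natAbs_ne_zero.2 hn)
    rcases Int.natAbs_eq n with h1 | h1
    · rw [h1] at hnx
      rwa [natCast_zsmul] at hnx
    · rw [h1, neg_smul, neg_eq_zero, natCast_zsmul] at hnx
      exact hnx

/-- If `G` is torsion free and `y` is linearly independent, then `∑ g k ⊗ y k = 0` only if all
`g k` vanish. -/
theorem eq_zero_of_sum_tmul {G M : Type*} [AddCommGroup G] [AddCommGroup M] (hG : TorFree G)
    {r : ℕ} {g : Fin r → G} {y : Fin r → M} (hy : LinearIndependent ℤ y)
    (h : ∑ k, g k ⊗ₜ[ℤ] y k = 0) : ∀ k, g k = 0 := by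
  have := hG.inst
  have h1 : ∑ k, y k ⊗ₜ[ℤ] g k = 0 := by
    have := congrArg (TensorProduct.comm ℤ G M) h
    simpa using this
  have h2 : Function.Injective ((Submodule.span ℤ (Set.range y)).subtype.rTensor G) :=
    Module.Flat.rTensor_preserves_injective_linearMap _ (Submodule.injective_subtype _)
  have h3 := TensorProduct.vanishesTrivially_of_sum_tmul_eq_zero_of_rTensor_injective ℤ h2 h1
  obtain ⟨κ, a, z, hz1, hz2⟩ := h3
  intro k
  rw [hz1 k]
  apply Finset.sum_eq_zero
  intro l _
  have h4 := Fintype.linearIndependent_iff.1 hy (fun i => a i l) (hz2 l) k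
  rw [h4, zero_smul]

/-- Every tensor can be written with linearly independent right hand sides. -/
theorem exists_indep_rep {G M : Type*} [AddCommGroup G] [AddCommGroup M] (hM : TorFree M)
    (z : G ⊗[ℤ] M) : ∃ (r : ℕ) (x : Fin r → G) (y : Fin r → M), LinearIndependent ℤ y ∧
      z = ∑ k, x k ⊗ₜ[ℤ] y k := by
  have := hM.inst
  obtain ⟨m, a, b, rfl⟩ := TensorProduct.exists_sum_tmul_eq z
  set N : Submodule ℤ M := Submodule.span ℤ (Set.range b) with hN
  have : Module.Finite ℤ N := Module.Finite.span_of_finite ℤ (Set.finite_range b)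
  have : Module.Free ℤ N := inferInstance
  set β := Module.finBasis ℤ N
  have hb : ∀ j, b j ∈ N := fun j => Submodule.subset_span ⟨j, rfl⟩
  refine ⟨_, fun l => ∑ j, (β.repr ⟨b j, hb j⟩ l) • a j, fun l => (β l : M), ?_, ?_⟩
  · exact β.linearIndependent.map' N.subtype (Submodule.ker_subtype N)
  · have h1 : ∀ j, b j = ∑ l, (β.repr ⟨b j, hb j⟩ l) • (β l : M) := by
      intro j
      have := congrArg (N.subtype) (β.sum_repr ⟨b j, hb j⟩)
      rw [map_sum] at this
      simp only [map_smul, Submodule.subtype_apply] at this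
      exact this.symm
    calc ∑ j, a j ⊗ₜ[ℤ] b j = ∑ j, ∑ l, a j ⊗ₜ[ℤ] ((β.repr ⟨b j, hb j⟩ l) • (β l : M)) := by
          refine Finset.sum_congr rfl fun j _ => ?_
          conv_lhs => rw [h1 j]
          rw [TensorProduct.tmul_sum]
      _ = ∑ l, ∑ j, ((β.repr ⟨b j, hb j⟩ l) • a j) ⊗ₜ[ℤ] (β l : M) := by
          rw [Finset.sum_comm]
          refine Finset.sum_congr rfl fun l _ => Finset.sum_congr rfl fun j _ => ?_
          rw [TensorProduct.smul_tmul]
      _ = _ := by
          refine Finset.sum_congr rfl fun l _ => ?_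
          rw [TensorProduct.sum_tmul]

end Pool.Agent.KU
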