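import Pool.Agent.helper95.KU.Pert

/-! # Matrix versions of the perturbation lemmas -/

set_option autoImplicit false

open Matrix Fintype

namespace Pool.Agent.KU

section mat

attribute [local instance] CStarAlgebra.spectralOrder CStarAlgebra.spectralOrderedRing

variable {F : Type*} [CStarAlgebra F] {ι κ : Type*} [Fintype ι] [DecidableEq ι] [Fintype κ]
  [DecidableEq κ]

/-- The diagonal matrix unit as a star homomorphism. -/
noncomputable def sgl (b : ι) : F →⋆ₙₐ[ℂ] CStarMatrix ι ι F where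
  toFun y := CStarMatrix.ofMatrix (Matrix.single b b y)
  map_smul' c y := by
    simp only [MonoidHom.id_apply]
    rw [CStarMatrix.smul_of, Matrix.smul_single]
  map_zero' := by rw [Matrix.single_zero]; rfl
  map_add' x y := by rw [Matrix.single_add]; rfl
  map_mul' x y := by
    have : Matrix.single b b (x * y) = Matrix.single b b x * Matrix.single b b y := by
      rw [Matrix.single_mul_single_same]
    rw [this]; rfl
  map_star' x := by
    have : Matrix.single b b (star x) = (Matrix.single b b x)ᴴ := by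
      rw [Matrix.conjTranspose_single]
    rw [this]; rfl

theorem norm_single_le (a b : ι) (y : F) :
    ‖(CStarMatrix.ofMatrix (Matrix.single a b y) : CStarMatrix ι ι F)‖ ≤ ‖y‖ := by
  have h1 : star (CStarMatrix.ofMatrix (Matrix.single a b y) : CStarMatrix ι ι F) *
      CStarMatrix.ofMatrix (Matrix.single a b y) = sgl b (star y * y) := by
    have : (Matrix.single a b y)ᴴ * Matrix.single a b y = Matrix.single b b (star y * y) := by
      rw [Matrix.conjTranspose_single, Matrix.single_mul_single_same]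
    change _ = CStarMatrix.ofMatrix (Matrix.single b b (star y * y))
    rw [← this]
    rfl
  have h2 := CStarRing.norm_star_mul_self
    (x := (CStarMatrix.ofMatrix (Matrix.single a b y) : CStarMatrix ι ι F))
  rw [h1] at h2
  have h3 : ‖sgl b (star y * y)‖ ≤ ‖star y * y‖ :=
    NonUnitalStarAlgHom.norm_apply_le (sgl b) (star y * y)
  rw [h2, CStarRing.norm_star_mul_self] at h3
  exact (mul_self_le_mul_self_iff (norm_nonneg _) (norm_nonneg _)).2 h3

theorem norm_le_sum (Y : Matrix ι ι F) :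
    ‖(CStarMatrix.ofMatrix Y : CStarMatrix ι ι F)‖ ≤ ∑ a, ∑ b, ‖Y a b‖ := by
  have h : (CStarMatrix.ofMatrix Y : CStarMatrix ι ι F) =
      ∑ a, ∑ b, CStarMatrix.ofMatrix (Matrix.single a b (Y a b)) := by
    have h0 := Matrix.matrix_eq_sum_single Y
    have h1 : (CStarMatrix.ofMatrixₗ (R := ℂ) Y : CStarMatrix ι ι F) =
      ∑ a, ∑ b, CStarMatrix.ofMatrixₗ (R := ℂ) (Matrix.single a b (Y a b)) := by
      conv_lhs => rw [h0]
      rw [map_sum]
      refine Finset.sum_congr rfl fun a _ => ?_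
      rw [map_sum]
    exact h1
  rw [h]
  refine (norm_sum_le _ _).trans (Finset.sum_le_sum fun a _ => ?_)
  exact (norm_sum_le _ _).trans (Finset.sum_le_sum fun b _ => norm_single_le a b _)

/-- Square matrices: an almost partial isometry between two projections. -/
theorem mvn_of_near_sq {e f w : Matrix ι ι F} (he : IsPr e) (hf : IsPr f)
    (h1 : ∑ a, ∑ b, ‖(wᴴ * w - e) a b‖ ≤ 1 / 10) (h2 : ∑ a, ∑ b, ‖(w * wᴴ - f) a b‖ ≤ 1 / 10) :
    MvN e f := by
  set E : CStarMatrix ι ι F := CStarMatrix.ofMatrix e with hE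
  set G : CStarMatrix ι ι F := CStarMatrix.ofMatrix f with hG
  set W : CStarMatrix ι ι F := CStarMatrix.ofMatrix w with hW
  have e1 : E * E = E := congrArg CStarMatrix.ofMatrix he.1
  have e2 : star E = E := congrArg CStarMatrix.ofMatrix he.2
  have e3 : G * G = G := congrArg CStarMatrix.ofMatrix hf.1
  have e4 : star G = G := congrArg CStarMatrix.ofMatrix hf.2
  have e5 : ‖star W * W - E‖ ≤ 1 / 10 := (norm_le_sum (wᴴ * w - e)).trans h1
  have e6 : ‖W * star W - G‖ ≤ 1 / 10 := (norm_le_sum (w * wᴴ - f)).trans h2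
  obtain ⟨v, hv1, hv2⟩ := exists_pi_near' e1 e2 e3 e4 e5 e6
  exact ⟨CStarMatrix.ofMatrix.symm v, hv1, hv2⟩

/-- Rectangular matrices: an almost partial isometry between two projections. -/
theorem mvn_of_near {e : Matrix ι ι F} {f : Matrix κ κ F} {w : Matrix κ ι F} (he : IsPr e)
    (hf : IsPr f) (h1 : ∑ a, ∑ b, ‖(wᴴ * w - e) a b‖ ≤ 1 / 10)
    (h2 : ∑ a, ∑ b, ‖(w * wᴴ - f) a b‖ ≤ 1 / 10) : MvN e f := by
  have hz : IsPr (0 : Matrix κ κ F) := isPr_zero
  have hz' : IsPr (0 : Matrix ι ι F) := isPr_zero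
  have hsq : MvN (fromBlocks e 0 0 (0 : Matrix κ κ F)) (fromBlocks (0 : Matrix ι ι F) 0 0 f) := by
    apply mvn_of_near_sq (he.block hz) (hz'.block hf) (w := fromBlocks 0 0 w 0)
    · have : (fromBlocks 0 0 w 0 : Matrix (ι ⊕ κ) (ι ⊕ κ) F)ᴴ * fromBlocks 0 0 w 0 -
          fromBlocks e 0 0 (0 : Matrix κ κ F) = fromBlocks (wᴴ * w - e) 0 0 0 := by
        rw [fromBlocks_conjTranspose, fromBlocks_multiply]
        ext i j
        rcases i with i | i <;> rcases j with j | j <;> simp
      rw [this]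
      simp only [Fintype.sum_sum_type, fromBlocks_apply₁₁, fromBlocks_apply₁₂,
        fromBlocks_apply₂₁, fromBlocks_apply₂₂, Matrix.zero_apply, norm_zero,
        Finset.sum_const_zero, add_zero]
      exact h1
    · have : (fromBlocks 0 0 w 0 : Matrix (ι ⊕ κ) (ι ⊕ κ) F) * (fromBlocks 0 0 w 0)ᴴ -
          fromBlocks (0 : Matrix ι ι F) 0 0 f = fromBlocks 0 0 0 (w * wᴴ - f) := by
        rw [fromBlocks_conjTranspose, fromBlocks_multiply]
        ext i j
        rcases i with i | i <;> rcases j with j | j <;> simp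
      rw [this]
      simp only [Fintype.sum_sum_type, fromBlocks_apply₁₁, fromBlocks_apply₁₂,
        fromBlocks_apply₂₁, fromBlocks_apply₂₂, Matrix.zero_apply, norm_zero,
        Finset.sum_const_zero, zero_add]
      exact h2
  have s1 : MvN e (fromBlocks e 0 0 (0 : Matrix κ κ F)) := (MvN.block_zero he).symm
  have s2 : MvN (fromBlocks (0 : Matrix ι ι F) 0 0 f) f :=
    (MvN.block_comm hz' hf).trans (hz'.block hf) hf (MvN.block_zero hf)
  exact (s1.trans he (hz'.block hf) hsq).trans he hf s2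

/-- An almost projection is close to a projection. -/
theorem exists_isPr_near {X : Matrix ι ι F} {S s : ℝ} (hS : ∑ a, ∑ b, ‖X a b‖ ≤ S)
    (h1 : ∑ a, ∑ b, ‖(X * X - X) a b‖ ≤ s) (h2 : ∑ a, ∑ b, ‖(Xᴴ - X) a b‖ ≤ s)
    (hs : s * (S + 3) < 1 / 4) (_hs1 : s ≤ 1) :
    ∃ e : Matrix ι ι F, IsPr e ∧ ∀ a b, ‖(e - X) a b‖ ≤ 2 * (s * (S + 3)) + s := by
  have hs0 : 0 ≤ s := le_trans (Finset.sum_nonneg fun a _ => Finset.sum_nonneg fun b _ =>
    norm_nonneg _) h1
  have hS0 : 0 ≤ S := le_trans (Finset.sum_nonneg fun a _ => Finset.sum_nonneg fun b _ =>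
    norm_nonneg _) hS
  set x : CStarMatrix ι ι F := CStarMatrix.ofMatrix X with hx
  have n0 : ‖x‖ ≤ S := (norm_le_sum X).trans hS
  have n1 : ‖x * x - x‖ ≤ s := (norm_le_sum (X * X - X)).trans h1
  have n2 : ‖star x - x‖ ≤ s := (norm_le_sum (Xᴴ - X)).trans h2
  set d : CStarMatrix ι ι F := (1 / 2 : ℂ) • (star x - x) with hd
  have nd : ‖d‖ ≤ s / 2 := by
    rw [hd, norm_smul]
    have : ‖(1 / 2 : ℂ)‖ = 1 / 2 := by norm_num
    rw [this]; linarith
  set y : CStarMatrix ι ι F := x + d with hy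
  have hsa : IsSelfAdjoint y := by
    have e1 : y = (1 / 2 : ℂ) • (star x + x) := by
      rw [hy, hd, smul_sub, smul_add]
      have : x = (1 / 2 : ℂ) • x + (1 / 2 : ℂ) • x := by
        rw [← add_smul]; norm_num
      nth_rewrite 1 [this]
      abel
    rw [e1]
    change star _ = _
    rw [star_smul, star_add, star_star, add_comm]
    congr 1
    simp
  have ny : ‖y * y - y‖ ≤ s * (S + 3) := by
    have e1 : y * y - y = (x * x - x) + (x * d + d * x) + (d * d - d) := by
      rw [hy]; noncomm_ring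
    rw [e1]
    have t1 : ‖x * d + d * x‖ ≤ S * (s / 2) + s / 2 * S := by
      refine (norm_add_le _ _).trans (add_le_add ?_ ?_)
      · exact (norm_mul_le _ _).trans (mul_le_mul n0 nd (norm_nonneg _) hS0)
      · exact (norm_mul_le _ _).trans (mul_le_mul nd n0 (norm_nonneg _) (by positivity))
    have t2 : ‖d * d - d‖ ≤ s / 2 * (s / 2) + s / 2 := by
      refine (norm_sub_le _ _).trans (add_le_add ?_ nd)
      exact (norm_mul_le _ _).trans (mul_le_mul nd nd (norm_nonneg _) (by positivity))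
    calc _ ≤ ‖(x * x - x) + (x * d + d * x)‖ + ‖d * d - d‖ := norm_add_le _ _
      _ ≤ (‖x * x - x‖ + ‖x * d + d * x‖) + ‖d * d - d‖ := by gcongr; exact norm_add_le _ _
      _ ≤ (s + (S * (s / 2) + s / 2 * S)) + (s / 2 * (s / 2) + s / 2) := by gcongr
      _ ≤ s * (S + 3) := by nlinarith
  obtain ⟨e, he1, he2, he3⟩ := exists_proj_near hsa hs ny
  refine ⟨CStarMatrix.ofMatrix.symm e, ⟨he1, he2⟩, fun a b => ?_⟩
  have h3 : ‖e - x‖ ≤ 2 * (s * (S + 3)) + s := by
    calc ‖e - x‖ = ‖(e - y) + d‖ := by rw [hy]; congr 1; abel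
      _ ≤ ‖e - y‖ + ‖d‖ := norm_add_le _ _
      _ ≤ 2 * (s * (S + 3)) + s / 2 := add_le_add he3 nd
      _ ≤ 2 * (s * (S + 3)) + s := by linarith
  exact (CStarMatrix.norm_entry_le_norm (M := e - x) (i := a) (j := b)).trans h3

end mat

end Pool.Agent.KU
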