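import Pool.Agent.helper95.KU.Prod
import Pool.Agent.helper95.KU.MatPert

/-! # C*-norms on the algebraic tensor product and asymptotic homomorphisms -/

set_option autoImplicit false

open Matrix Fintype Filter Topology
open scoped TensorProduct

namespace Pool.Agent.KU

universe u v w

section defs

variable {A B C : Type*} [CStarAlgebra A] [CStarAlgebra B] [CStarAlgebra C]

/-- A C*-seminorm on the algebraic tensor product `A ⊗ B` over `ℂ`. -/
structure IsCStarSeminorm (ν : A ⊗[ℂ] B → ℝ) : Prop where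
  add_le : ∀ x y, ν (x + y) ≤ ν x + ν y
  smul : ∀ (c : ℂ) x, ν (c • x) = ‖c‖ * ν x
  mul_le : ∀ x y, ν (x * y) ≤ ν x * ν y
  star_mul_self : ∀ x, ν (star x * x) = ν x ^ 2

/-- A C*-norm on the algebraic tensor product `A ⊗ B` over `ℂ`. -/
structure IsCStarNorm (ν : A ⊗[ℂ] B → ℝ) : Prop extends IsCStarSeminorm ν where
  eq_zero : ∀ x, ν x = 0 → x = 0

theorem IsCStarSeminorm.nonneg {ν : A ⊗[ℂ] B → ℝ} (h : IsCStarSeminorm ν) (x : A ⊗[ℂ] B) :
    0 ≤ ν x := by
  have h0 : ν (0 : A ⊗[ℂ] B) = 0 := by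
    have := h.smul 0 (0 : A ⊗[ℂ] B)
    simpa using this
  have h1 := h.smul (-1) x
  have h2 := h.add_le x ((-1 : ℂ) • x)
  rw [h1] at h2
  simp only [norm_neg, norm_one, one_mul] at h2
  have h3 : x + (-1 : ℂ) • x = 0 := by
    rw [neg_smul, one_smul, add_neg_cancel]
  rw [h3, h0] at h2
  linarith

/-- The linear map `a ⊗ b ↦ f a * g b`. -/
noncomputable def tmap (f : A →ₗ[ℂ] C) (g : B →ₗ[ℂ] C) : A ⊗[ℂ] B →ₗ[ℂ] C :=
  LinearMap.mul' ℂ C ∘ₗ TensorProduct.map f g

theorem tmap_tmul (f : A →ₗ[ℂ] C) (g : B →ₗ[ℂ] C) (a : A) (b : B) :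
    tmap f g (a ⊗ₜ b) = f a * g b := by
  simp [tmap]

/-- The linear map `A ⊗ B → C`, `a ⊗ b ↦ i a * j b` of two star homomorphisms. -/
noncomputable def pim (i : A →⋆ₐ[ℂ] C) (j : B →⋆ₐ[ℂ] C) : A ⊗[ℂ] B →ₗ[ℂ] C :=
  tmap i.toAlgHom.toLinearMap j.toAlgHom.toLinearMap

theorem pim_tmul (i : A →⋆ₐ[ℂ] C) (j : B →⋆ₐ[ℂ] C) (a : A) (b : B) :
    pim i j (a ⊗ₜ b) = i a * j b := by
  unfold pim
  rw [tmap_tmul]
  rfl

theorem pim_mul {i : A →⋆ₐ[ℂ] C} {j : B →⋆ₐ[ℂ] C} (hc : ∀ a b, Commute (i a) (j b))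
    (x y : A ⊗[ℂ] B) : pim i j (x * y) = pim i j x * pim i j y := by
  induction x using TensorProduct.induction_on with
  | zero => simp
  | add x x' hx hx' => rw [add_mul, map_add, map_add, add_mul, hx, hx']
  | tmul a b =>
    induction y using TensorProduct.induction_on with
    | zero => simp
    | add y y' hy hy' => rw [mul_add, map_add, map_add, mul_add, hy, hy']
    | tmul a' b' =>
      rw [Algebra.TensorProduct.tmul_mul_tmul, pim_tmul, pim_tmul, pim_tmul, map_mul, map_mul]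
      have := (hc a' b).eq
      calc i a * i a' * (j b * j b') = i a * (i a' * j b) * j b' := by noncomm_ring
        _ = i a * (j b * i a') * j b' := by rw [this]
        _ = _ := by noncomm_ring

theorem pim_star {i : A →⋆ₐ[ℂ] C} {j : B →⋆ₐ[ℂ] C} (hc : ∀ a b, Commute (i a) (j b))
    (x : A ⊗[ℂ] B) : pim i j (star x) = star (pim i j x) := by
  induction x using TensorProduct.induction_on with
  | zero => simp
  | add x x' hx hx' => rw [star_add, map_add, map_add, star_add, hx, hx']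
  | tmul a b =>
    rw [TensorProduct.star_tmul, pim_tmul, pim_tmul, star_mul, map_star, map_star]
    rw [← map_star, ← map_star]
    exact (hc _ _).eq

/-- `C` (with `i` and `j`) is a C*-tensor product of `A` and `B`: the ranges commute, the map from
the algebraic tensor product is injective and its range is dense.  (In other words, `C` is the
completion of the algebraic tensor product with respect to some C*-norm.) -/
structure IsTensor (i : A →⋆ₐ[ℂ] C) (j : B →⋆ₐ[ℂ] C) : Prop where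
  comm : ∀ a b, Commute (i a) (j b)
  inj : Function.Injective (pim i j)
  dense : DenseRange (pim i j)

theorem isCStarNorm_pim {i : A →⋆ₐ[ℂ] C} {j : B →⋆ₐ[ℂ] C} (h : IsTensor i j) :
    IsCStarNorm (fun x => ‖pim i j x‖) where
  add_le x y := by rw [map_add]; exact norm_add_le _ _
  smul c x := by rw [map_smul]; exact norm_smul _ _
  eq_zero x hx := h.inj (by rw [map_zero]; exact norm_eq_zero.1 hx)
  mul_le x y := by rw [pim_mul h.comm]; exact norm_mul_le _ _
  star_mul_self x := by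
    rw [pim_mul h.comm, pim_star h.comm, CStarRing.norm_star_mul_self, sq]

/-- The norm of `C` dominates every C*-seminorm on the algebraic tensor product, i.e. `C` is the
maximal tensor product of `A` and `B`. -/
def IsMax (i : A →⋆ₐ[ℂ] C) (j : B →⋆ₐ[ℂ] C) : Prop :=
  ∀ ν : A ⊗[ℂ] B → ℝ, IsCStarSeminorm ν → ∀ x, ν x ≤ ‖pim i j x‖

/-- If there is only one C*-norm on the algebraic tensor product, then every C*-tensor product is
maximal. -/
theorem isMax_of_unique {i : A →⋆ₐ[ℂ] C} {j : B →⋆ₐ[ℂ] C} (h : IsTensor i j)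
    (hnuc : ∀ ν₁ ν₂ : A ⊗[ℂ] B → ℝ, IsCStarNorm ν₁ → IsCStarNorm ν₂ → ν₁ = ν₂) :
    IsMax i j := by
  intro ρ hρ x
  have hν := isCStarNorm_pim h
  have hρ0 := hρ.nonneg
  have hmax : IsCStarNorm (fun y => max (ρ y) ‖pim i j y‖) := by
    refine ⟨⟨fun y z => ?_, fun c y => ?_, fun y z => ?_, fun y => ?_⟩, fun y hy => ?_⟩
    · refine max_le ((hρ.add_le y z).trans (add_le_add (le_max_left _ _) (le_max_left _ _)))
        ((hν.add_le y z).trans (add_le_add (le_max_right _ _) (le_max_right _ _)))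
    · have h1 := hν.smul c y
      rw [hρ.smul, h1, mul_max_of_nonneg _ _ (norm_nonneg c)]
    · refine max_le ((hρ.mul_le y z).trans ?_) ((hν.mul_le y z).trans ?_)
      · exact mul_le_mul (le_max_left _ _) (le_max_left _ _) (hρ0 z)
          (le_max_of_le_left (hρ0 y))
      · exact mul_le_mul (le_max_right _ _) (le_max_right _ _) (norm_nonneg _)
          (le_max_of_le_left (hρ0 y))
    · have h1 := hν.star_mul_self y
      rw [hρ.star_mul_self, h1]
      rcases le_total (ρ y) ‖pim i j y‖ with h | h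
      · rw [max_eq_right h, max_eq_right (pow_le_pow_left₀ (hρ0 y) h 2)]
      · rw [max_eq_left h, max_eq_left (pow_le_pow_left₀ (norm_nonneg _) h 2)]
    · apply hν.eq_zero
      have h1 : ‖pim i j y‖ ≤ 0 := (le_max_right _ _).trans_eq hy
      exact le_antisymm h1 (norm_nonneg _)
  have heq := congrFun (hnuc _ _ hmax hν) x
  exact (le_max_left _ _).trans_eq heq

end defs

/-- A (unital) C*-algebra `A` is nuclear if for every unital C*-algebra `B` there is only one
C*-norm on the algebraic tensor product of `A` and `B`. -/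
def IsNuclear (A : Type u) [CStarAlgebra A] : Prop :=
  ∀ (B : Type u) [CStarAlgebra B] (ν₁ ν₂ : A ⊗[ℂ] B → ℝ), IsCStarNorm ν₁ → IsCStarNorm ν₂ → ν₁ = ν₂

section asym

variable {A B C : Type u} [CStarAlgebra A] [CStarAlgebra B] [CStarAlgebra C]

/-- An asymptotic homomorphism from `A` to the sequence of C*-algebras `D n`. -/
structure IsAsymHom {D : ℕ → Type v} [∀ n, CStarAlgebra (D n)] (φ : ∀ n, A →ₗ[ℂ] D n) : Prop where
  mul : ∀ a a', Tendsto (fun n => ‖φ n (a * a') - φ n a * φ n a'‖) atTop (𝓝 0)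
  star : ∀ a, Tendsto (fun n => ‖φ n (star a) - star (φ n a)‖) atTop (𝓝 0)
  bdd : ∀ a, ∃ K : ℝ, ∀ n, ‖φ n a‖ ≤ K

variable {D : ℕ → Type v} {F : ℕ → Type w} [∀ n, CStarAlgebra (D n)] [∀ n, CStarAlgebra (F n)]

/-- The maps `A ⊗ B → F n` induced by `φ n : A → D n`, `i n : D n → F n` and `j n : B → F n`. -/
noncomputable def Tn (φ : ∀ n, A →ₗ[ℂ] D n) (i : ∀ n, D n →⋆ₐ[ℂ] F n) (j : ∀ n, B →⋆ₐ[ℂ] F n)
    (n : ℕ) : A ⊗[ℂ] B →ₗ[ℂ] F n :=
  tmap ((i n).toAlgHom.toLinearMap ∘ₗ φ n) (j n).toAlgHom.toLinearMap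

theorem Tn_tmul (φ : ∀ n, A →ₗ[ℂ] D n) (i : ∀ n, D n →⋆ₐ[ℂ] F n) (j : ∀ n, B →⋆ₐ[ℂ] F n)
    (n : ℕ) (a : A) (b : B) : Tn φ i j n (a ⊗ₜ b) = i n (φ n a) * j n b := by
  unfold Tn
  rw [tmap_tmul]
  rfl

theorem norm_i_le {D' : Type*} {F' : Type*} [CStarAlgebra D'] [CStarAlgebra F'] (f : D' →⋆ₐ[ℂ] F') (d : D') :
    ‖f d‖ ≤ ‖d‖ := NonUnitalStarAlgHom.norm_apply_le f d

variable {φ : ∀ n, A →ₗ[ℂ] D n} {i : ∀ n, D n →⋆ₐ[ℂ] F n} {j : ∀ n, B →⋆ₐ[ℂ] F n}

theorem Tn_mul (hφ : IsAsymHom φ) (hc : ∀ n d b, Commute (i n d) (j n b)) (x y : A ⊗[ℂ] B) :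
    Tendsto (fun n => ‖Tn φ i j n (x * y) - Tn φ i j n x * Tn φ i j n y‖) atTop (𝓝 0) := by
  induction x using TensorProduct.induction_on with
  | zero => simp
  | add x x' hx hx' =>
    refine squeeze_zero (fun n => norm_nonneg _) (fun n => ?_) (by simpa using hx.add hx')
    rw [add_mul, map_add, map_add, add_mul]
    calc _ = ‖(Tn φ i j n (x * y) - Tn φ i j n x * Tn φ i j n y) +
          (Tn φ i j n (x' * y) - Tn φ i j n x' * Tn φ i j n y)‖ := by congr 1; abel
      _ ≤ _ := norm_add_le _ _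
  | tmul a b =>
    induction y using TensorProduct.induction_on with
    | zero => simp
    | add y y' hy hy' =>
      refine squeeze_zero (fun n => norm_nonneg _) (fun n => ?_) (by simpa using hy.add hy')
      rw [mul_add, map_add, map_add, mul_add]
      calc _ = ‖(Tn φ i j n (a ⊗ₜ b * y) - Tn φ i j n (a ⊗ₜ b) * Tn φ i j n y) +
            (Tn φ i j n (a ⊗ₜ b * y') - Tn φ i j n (a ⊗ₜ b) * Tn φ i j n y')‖ := by
              congr 1; abel
        _ ≤ _ := norm_add_le _ _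
    | tmul a' b' =>
      have h1 := (hφ.mul a a').mul_const (‖b * b'‖)
      rw [zero_mul] at h1
      refine squeeze_zero (fun n => norm_nonneg _) (fun n => ?_) h1
      have e1 : Tn φ i j n (a ⊗ₜ b * a' ⊗ₜ b') - Tn φ i j n (a ⊗ₜ b) * Tn φ i j n (a' ⊗ₜ b') =
          i n (φ n (a * a') - φ n a * φ n a') * j n (b * b') := by
        rw [Algebra.TensorProduct.tmul_mul_tmul, Tn_tmul, Tn_tmul, Tn_tmul, map_sub (i n),
          map_mul (i n), map_mul (j n)]
        have := (hc n (φ n a') b).eq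
        calc i n (φ n (a * a')) * (j n b * j n b') - i n (φ n a) * j n b *
              (i n (φ n a') * j n b')
            = i n (φ n (a * a')) * (j n b * j n b') - i n (φ n a) * (j n b *
              i n (φ n a')) * j n b' := by simp only [mul_assoc]
          _ = i n (φ n (a * a')) * (j n b * j n b') - i n (φ n a) * (i n (φ n a') *
              j n b) * j n b' := by rw [this]
          _ = _ := by rw [sub_mul]; simp only [mul_assoc]
      rw [e1]
      exact (norm_mul_le _ _).trans (mul_le_mul (norm_i_le _ _) (norm_i_le _ _) (norm_nonneg _)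
        (norm_nonneg _))

theorem Tn_star (hφ : IsAsymHom φ) (hc : ∀ n d b, Commute (i n d) (j n b)) (x : A ⊗[ℂ] B) :
    Tendsto (fun n => ‖Tn φ i j n (star x) - star (Tn φ i j n x)‖) atTop (𝓝 0) := by
  induction x using TensorProduct.induction_on with
  | zero => simp
  | add x x' hx hx' =>
    refine squeeze_zero (fun n => norm_nonneg _) (fun n => ?_) (by simpa using hx.add hx')
    rw [star_add, map_add, map_add, star_add]
    calc _ = ‖(Tn φ i j n (star x) - star (Tn φ i j n x)) +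
          (Tn φ i j n (star x') - star (Tn φ i j n x'))‖ := by congr 1; abel
      _ ≤ _ := norm_add_le _ _
  | tmul a b =>
    have h1 := (hφ.star a).mul_const (‖star b‖)
    rw [zero_mul] at h1
    refine squeeze_zero (fun n => norm_nonneg _) (fun n => ?_) h1
    have e1 : Tn φ i j n (star (a ⊗ₜ b)) - star (Tn φ i j n (a ⊗ₜ b)) =
        i n (φ n (star a) - star (φ n a)) * j n (star b) := by
      rw [TensorProduct.star_tmul, Tn_tmul, Tn_tmul, star_mul, map_sub, sub_mul]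
      congr 1
      rw [← map_star, ← map_star]
      exact (hc n _ _).eq.symm
    rw [e1]
    exact (norm_mul_le _ _).trans (mul_le_mul (norm_i_le _ _) (norm_i_le _ _) (norm_nonneg _)
      (norm_nonneg _))

theorem Tn_bdd (hφ : IsAsymHom φ) (x : A ⊗[ℂ] B) : ∃ K : ℝ, ∀ n, ‖Tn φ i j n x‖ ≤ K := by
  induction x using TensorProduct.induction_on with
  | zero => exact ⟨0, fun n => by simp⟩
  | add x x' hx hx' =>
    obtain ⟨K, hK⟩ := hx
    obtain ⟨K', hK'⟩ := hx'
    refine ⟨K + K', fun n => ?_⟩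
    rw [map_add]
    exact (norm_add_le _ _).trans (add_le_add (hK n) (hK' n))
  | tmul a b =>
    obtain ⟨K, hK⟩ := hφ.bdd a
    refine ⟨K * ‖b‖, fun n => ?_⟩
    rw [Tn_tmul]
    exact (norm_mul_le _ _).trans (mul_le_mul ((norm_i_le _ _).trans (hK n)) (norm_i_le _ _)
      (norm_nonneg _) ((norm_nonneg _).trans (hK n)))

/-- The C*-norm of the maximal tensor product dominates the limits of the norms of the `Tn`. -/
theorem Tn_dom {i' : A →⋆ₐ[ℂ] C} {j' : B →⋆ₐ[ℂ] C} (hmax : IsMax i' j')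
    (hφ : IsAsymHom φ) (hc : ∀ n d b, Commute (i n d) (j n b)) (x : A ⊗[ℂ] B) {δ : ℝ}
    (hδ : 0 < δ) : ∀ᶠ n in atTop, ‖Tn φ i j n x‖ ≤ ‖pim i' j' x‖ + δ := by
  by_contra hcon
  have hfr : ∃ᶠ n in atTop, ‖pim i' j' x‖ + δ < ‖Tn φ i j n x‖ := by
    refine (not_eventually.1 hcon).mono fun n hn => not_le.1 hn
  set S : Set ℕ := {n | ‖pim i' j' x‖ + δ < ‖Tn φ i j n x‖} with hS
  have : (atTop ⊓ 𝓟 S).NeBot := by
    rw [← frequently_mem_iff_neBot]
    exact hfr
  set ω : Ultrafilter ℕ := Ultrafilter.of (atTop ⊓ 𝓟 S) with hω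
  have hle : (ω : Filter ℕ) ≤ atTop ⊓ 𝓟 S := Ultrafilter.of_le _
  have hle1 : (ω : Filter ℕ) ≤ atTop := hle.trans inf_le_left
  have hSω : ∀ᶠ n in (ω : Filter ℕ), n ∈ S := (hle.trans inf_le_right) (mem_principal_self S)
  have hlim : ∀ y : A ⊗[ℂ] B, ∃ r : ℝ, Tendsto (fun n => ‖Tn φ i j n y‖) (ω : Filter ℕ) (𝓝 r) := by
    intro y
    obtain ⟨K, hK⟩ := Tn_bdd (i := i) (j := j) hφ y
    have hcomp : IsCompact (Set.Icc (0 : ℝ) K) := isCompact_Icc
    have := hcomp.ultrafilter_le_nhds (ω.map fun n => ‖Tn φ i j n y‖) (by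
      rw [le_principal_iff, Ultrafilter.mem_coe, Ultrafilter.mem_map]
      exact Filter.univ_mem' fun n => ⟨norm_nonneg _, hK n⟩)
    obtain ⟨r, _, hr⟩ := this
    exact ⟨r, hr⟩
  choose ρ hρ using hlim
  have hmul0 := fun x y => (Tn_mul (i := i) (j := j) hφ hc x y).mono_left hle1
  have hstar0 := fun x => (Tn_star (i := i) (j := j) hφ hc x).mono_left hle1
  have hρ0 : ∀ y, 0 ≤ ρ y := fun y => ge_of_tendsto' (hρ y) fun n => norm_nonneg _
  have hradd : ∀ y z, ρ (y + z) ≤ ρ y + ρ z := fun y z =>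
    le_of_tendsto_of_tendsto' (hρ (y + z)) ((hρ y).add (hρ z)) fun n => by
      rw [map_add]; exact norm_add_le _ _
  have hrsmul : ∀ (c : ℂ) y, ρ (c • y) = ‖c‖ * ρ y := fun c y =>
    tendsto_nhds_unique (hρ (c • y)) (((hρ y).const_mul ‖c‖).congr fun n => by
      rw [map_smul, norm_smul])
  have hrmul : ∀ y z, ρ (y * z) ≤ ρ y * ρ z := by
    intro y z
    have h1 : Tendsto (fun n => ‖Tn φ i j n (y * z) - Tn φ i j n y * Tn φ i j n z‖ +
        ‖Tn φ i j n y‖ * ‖Tn φ i j n z‖) (ω : Filter ℕ) (𝓝 (0 + ρ y * ρ z)) :=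
      (hmul0 y z).add ((hρ y).mul (hρ z))
    rw [zero_add] at h1
    refine le_of_tendsto_of_tendsto' (hρ (y * z)) h1 fun n => ?_
    calc ‖Tn φ i j n (y * z)‖ = ‖(Tn φ i j n (y * z) - Tn φ i j n y * Tn φ i j n z) +
          Tn φ i j n y * Tn φ i j n z‖ := by rw [sub_add_cancel]
      _ ≤ _ := (norm_add_le _ _).trans (by gcongr; exact norm_mul_le _ _)
  have hrstar : ∀ y, ρ (star y * y) = ρ y ^ 2 := by
    intro y
    obtain ⟨K, hK⟩ := Tn_bdd (i := i) (j := j) hφ y
    have h2 : Tendsto (fun n => ‖Tn φ i j n y‖ ^ 2) (ω : Filter ℕ) (𝓝 (ρ y ^ 2)) := (hρ y).pow 2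
    have h3 : Tendsto (fun n => ‖Tn φ i j n (star y * y)‖ - ‖Tn φ i j n y‖ ^ 2)
        (ω : Filter ℕ) (𝓝 0) := by
      have h4 : Tendsto (fun n => ‖Tn φ i j n (star y * y) - Tn φ i j n (star y) *
          Tn φ i j n y‖ + ‖Tn φ i j n (star y) - star (Tn φ i j n y)‖ * K)
          (ω : Filter ℕ) (𝓝 0) := by
        have := (hmul0 (star y) y).add ((hstar0 y).mul_const K)
        simpa using this
      refine squeeze_zero_norm (fun n => ?_) h4
      rw [Real.norm_eq_abs, sq, ← CStarRing.norm_star_mul_self (x := Tn φ i j n y)]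
      refine (abs_norm_sub_norm_le _ _).trans ?_
      have e1 : Tn φ i j n (star y * y) - star (Tn φ i j n y) * Tn φ i j n y =
          (Tn φ i j n (star y * y) - Tn φ i j n (star y) * Tn φ i j n y) +
          (Tn φ i j n (star y) - star (Tn φ i j n y)) * Tn φ i j n y := by noncomm_ring
      rw [e1]
      refine (norm_add_le _ _).trans (add_le_add le_rfl ((norm_mul_le _ _).trans ?_))
      exact mul_le_mul_of_nonneg_left (hK n) (norm_nonneg _)
    have h5 := (hρ (star y * y)).sub h2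
    have := tendsto_nhds_unique h3 h5
    linarith
  have h1 : ρ x ≤ ‖pim i' j' x‖ := hmax ρ ⟨hradd, hrsmul, hrmul, hrstar⟩ x
  have h2 : ‖pim i' j' x‖ + δ ≤ ρ x := ge_of_tendsto (hρ x) (hSω.mono fun n hn => le_of_lt hn)
  linarith

end asym

end Pool.Agent.KU
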