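import Pool.Agent.helper95.KU.MatProbe

/-! # Consequences: detection by matrix algebras, by traces, and of the unit -/

set_option autoImplicit false

open Matrix Fintype Filter Topology
open scoped TensorProduct

namespace Pool.Agent.KU

universe u v w

section tau

variable {A : Type*} [CStarAlgebra A]

/-- The map `V(A) → ℂ` of a tracial functional. -/
noncomputable def tauV (τ : A →ₗ[ℂ] ℂ) (hτ : ∀ a b, τ (a * b) = τ (b * a)) : V A → ℂ :=
  Quotient.lift (s := prSetoid _) (fun p => ∑ l, τ (p.mat l l)) (by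
    rintro p q ⟨v, h1, h2⟩
    have e1 : ∀ l, τ (p.mat l l) = ∑ c, τ (star (v c l) * v c l) := by
      intro l
      rw [← map_sum]
      congr 1
      exact (congrFun (congrFun h1 l) l).symm
    have e2 : ∀ c, τ (q.mat c c) = ∑ l, τ (v c l * star (v c l)) := by
      intro c
      rw [← map_sum]
      congr 1
      exact (congrFun (congrFun h2 c) c).symm
    calc ∑ l, τ (p.mat l l) = ∑ l, ∑ c, τ (star (v c l) * v c l) :=
          Finset.sum_congr rfl fun l _ => e1 l
      _ = ∑ c, ∑ l, τ (v c l * star (v c l)) := by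
          rw [Finset.sum_comm]
          exact Finset.sum_congr rfl fun c _ => Finset.sum_congr rfl fun l _ => hτ _ _
      _ = _ := Finset.sum_congr rfl fun c _ => (e2 c).symm)

theorem tauV_cls (τ : A →ₗ[ℂ] ℂ) (hτ : ∀ a b, τ (a * b) = τ (b * a)) {ι : Type*} [Fintype ι]
    {p : Matrix ι ι A} (hp : IsPr p) : tauV τ hτ (cls p hp) = ∑ l, τ (p l l) := by
  change ∑ l, τ (p ((equivFin ι).symm l) ((equivFin ι).symm l)) = _
  exact Equiv.sum_comp (equivFin ι).symm fun l => τ (p l l)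

/-- The homomorphism `K₀(A) → ℂ`, `[p] ↦ ∑ τ(p l l)`, of a tracial functional `τ`. -/
noncomputable def tauK (τ : A →ₗ[ℂ] ℂ) (hτ : ∀ a b, τ (a * b) = τ (b * a)) : K0 A →+ ℂ :=
  K0.lift
    { toFun := tauV τ hτ
      map_zero' := by rw [zero_def, tauV_cls]; simp
      map_add' := fun x y => by
        obtain ⟨n, p, hp, rfl⟩ := x.exists_rep
        obtain ⟨m, q, hq, rfl⟩ := y.exists_rep
        rw [cls_add, tauV_cls, tauV_cls, tauV_cls]
        simp [Fintype.sum_sum_type] }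

theorem tauK_kc (τ : A →ₗ[ℂ] ℂ) (hτ : ∀ a b, τ (a * b) = τ (b * a)) {ι : Type*} [Fintype ι]
    {p : Matrix ι ι A} (hp : IsPr p) : tauK τ hτ (kc p hp) = ∑ l, τ (p l l) := by
  unfold tauK kc
  rw [K0.lift_of]
  exact tauV_cls τ hτ hp

end tau

section entry

attribute [local instance] CStarAlgebra.spectralOrder CStarAlgebra.spectralOrderedRing

theorem norm_entry_le (k : ℕ) (M : CStarMatrix (Fin k) (Fin k) ℂ) (a b : Fin k) :
    ‖M a b‖ ≤ ‖M‖ := CStarMatrix.norm_entry_le_norm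

end entry

section mat

/-- An asymptotic homomorphism from `A` to matrix algebras `M_{k n}(ℂ)`. -/
structure MatHom (A : Type u) [CStarAlgebra A] where
  k : ℕ → ℕ
  φ : ∀ n, A →ₗ[ℂ] CStarMatrix (Fin (k n)) (Fin (k n)) ℂ
  asym : IsAsymHom φ

variable {A : Type u} [CStarAlgebra A]

/-- The probe of an asymptotic homomorphism to matrix algebras. -/
noncomputable def MatHom.probe (S : MatHom A) (B : Type u) [CStarAlgebra B] :
    Probe.{u, 0, u} A B where
  D n := CStarMatrix (Fin (S.k n)) (Fin (S.k n)) ℂ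
  F n := CStarMatrix (Fin (S.k n)) (Fin (S.k n)) B
  cD n := matC ℂ (S.k n)
  cF n := matC B (S.k n)
  i n := iMat B (S.k n)
  j n := jMat B (S.k n)
  inj n := ⟨ij_comm B (S.k n), alpha_matrix_injective B (S.k n)⟩
  φ := S.φ
  asym := S.asym

theorem norm_tr_le (k : ℕ) (M : CStarMatrix (Fin k) (Fin k) ℂ) : ‖∑ a, M a a‖ ≤ k * ‖M‖ := by
  calc ‖∑ a, M a a‖ ≤ ∑ a, ‖M a a‖ := norm_sum_le _ _
    _ ≤ ∑ _a : Fin k, ‖M‖ := Finset.sum_le_sum fun a _ => norm_entry_le k M a a
    _ = k * ‖M‖ := by simp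

/-- The normalised traces of `φ n` converge to `τ`. -/
def MatHom.HasTrace (S : MatHom A) (τ : A →ₗ[ℂ] ℂ) : Prop :=
  (∀ n, 0 < S.k n) ∧ ∀ a, Tendsto (fun n => (∑ c, S.φ n a c c) / (S.k n : ℂ)) atTop (𝓝 (τ a))

theorem tendsto_tr_of_near (S : MatHom A) (hk : ∀ n, 0 < S.k n) {a : A} {t : ℂ}
    (ha : Tendsto (fun n => (∑ c, S.φ n a c c) / (S.k n : ℂ)) atTop (𝓝 t))
    {e : ∀ n, CStarMatrix (Fin (S.k n)) (Fin (S.k n)) ℂ}
    (he : Tendsto (fun n => ‖e n - S.φ n a‖) atTop (𝓝 0)) :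
    Tendsto (fun n => (∑ c, e n c c) / (S.k n : ℂ)) atTop (𝓝 t) := by
  have h1 : Tendsto (fun n => (∑ c, (e n - S.φ n a) c c) / (S.k n : ℂ)) atTop (𝓝 0) := by
    refine squeeze_zero_norm (fun n => ?_) he
    rw [norm_div, Complex.norm_natCast, div_le_iff₀ (by exact_mod_cast hk n), mul_comm]
    exact norm_tr_le _ _
  have h2 := h1.add ha
  rw [zero_add] at h2
  refine h2.congr fun n => ?_
  rw [← add_div, ← Finset.sum_add_distrib]
  congr 1
  refine Finset.sum_congr rfl fun c _ => ?_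
  rw [CStarMatrix.sub_apply]
  ring

theorem MatHom.HasTrace.comm {S : MatHom A} {τ : A →ₗ[ℂ] ℂ} (h : S.HasTrace τ) (a b : A) :
    τ (a * b) = τ (b * a) := by
  have h1 : ∀ a b : A, Tendsto (fun n => (∑ c, (S.φ n a * S.φ n b) c c) / (S.k n : ℂ)) atTop
      (𝓝 (τ (a * b))) := by
    intro a b
    refine tendsto_tr_of_near S h.1 (h.2 (a * b)) ?_
    refine (S.asym.mul a b).congr fun n => ?_
    rw [norm_sub_rev]
  refine tendsto_nhds_unique (h1 a b) ((h1 b a).congr fun n => ?_)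
  congr 1
  simp only [CStarMatrix.mul_apply]
  rw [Finset.sum_comm]
  exact Finset.sum_congr rfl fun c _ => Finset.sum_congr rfl fun d _ => mul_comm _ _

/-- A class with a non-zero value of a matricial trace is detected. -/
theorem MatHom.HasTrace.detects {S : MatHom A} {τ : A →ₗ[ℂ] ℂ} (h : S.HasTrace τ) {x : K0 A}
    (hx : tauK τ h.comm x ≠ 0) : Detects S.φ x := by
  obtain ⟨g, hg⟩ := exists_follows S.asym x
  refine ⟨g, hg, ?_⟩
  obtain ⟨a, p, hp, b, q, hq, e, he, f, hf, h1, h2, h3, h4⟩ := hg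
  by_contra hcon
  have hev : ∀ᶠ n in atTop, g n = 0 := by
    have := not_frequently.1 hcon
    exact this.mono fun n hn => not_not.1 hn
  apply hx
  rw [h1, map_sub, tauK_kc, tauK_kc, sub_eq_zero]
  have e1 : Tendsto (fun n => ∑ l, (∑ c, e n l l c c) / (S.k n : ℂ)) atTop
      (𝓝 (∑ l, τ (p l l))) :=
    tendsto_finsetSum Finset.univ fun l _ => tendsto_tr_of_near S h.1 (h.2 (p l l)) (h2 l l)
  have e2 : Tendsto (fun n => ∑ l, (∑ c, f n l l c c) / (S.k n : ℂ)) atTop
      (𝓝 (∑ l, τ (q l l))) :=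
    tendsto_finsetSum Finset.univ fun l _ => tendsto_tr_of_near S h.1 (h.2 (q l l)) (h3 l l)
  refine tendsto_nhds_unique e1 (e2.congr' ?_)
  refine hev.mono fun n hn => ?_
  have hn' : g n = 0 := hn
  have h5 : trM (S.k n) (kc (e n) (he n)) = trM (S.k n) (kc (f n) (hf n)) := by
    rw [← sub_eq_zero, ← map_sub, ← h4 n, hn', map_zero]
  rw [trM_kc, trM_kc] at h5
  have h6 : ∀ {r : ℕ} (m : Matrix (Fin r) (Fin r) (CStarMatrix (Fin (S.k n)) (Fin (S.k n)) ℂ)),
      (flat m).trace = ∑ l, ∑ c, m l l c c := by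
    intro r m
    unfold Matrix.trace
    rw [Fintype.sum_prod_type]
    rfl
  rw [h6, h6] at h5
  change ∑ l, (∑ c, f n l l c c) / (S.k n : ℂ) = ∑ l, (∑ c, e n l l c c) / (S.k n : ℂ)
  calc ∑ l, (∑ c, f n l l c c) / (S.k n : ℂ) = (∑ l, ∑ c, f n l l c c) / (S.k n : ℂ) :=
        (Finset.sum_div Finset.univ (fun l => ∑ c, f n l l c c) _).symm
    _ = (∑ l, ∑ c, e n l l c c) / (S.k n : ℂ) := by rw [h5]
    _ = _ := Finset.sum_div Finset.univ (fun l => ∑ c, e n l l c c) _

/-- The class of the unit is detected by every asymptotic homomorphism to matrix algebras with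
`φ n 1 ↛ 0`. -/
theorem MatHom.detects_one (S : MatHom A) (h : ¬ Tendsto (fun n => ‖S.φ n 1‖) atTop (𝓝 0)) :
    Detects S.φ (kc (1 : Matrix (Fin 1) (Fin 1) A) isPr_one) := by
  obtain ⟨e, he, h2⟩ := exists_near_seq S.asym (isPr_one : IsPr (1 : Matrix (Fin 1) (Fin 1) A))
  obtain ⟨f, hf, h3⟩ := exists_near_seq S.asym (isPr_zero : IsPr (0 : Matrix (Fin 0) (Fin 0) A))
  have hf0 : ∀ n, kc (f n) (hf n) = 0 := by
    intro n
    have h5 : cls (f n) (hf n) = 0 := by
      rw [zero_def, cls_eq_iff]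
      exact ⟨0, by ext a; exact a.elim0, by ext a; exact a.elim0⟩
    unfold kc
    rw [h5, map_zero]
  have h0 : kc (0 : Matrix (Fin 0) (Fin 0) A) isPr_zero = 0 := by
    unfold kc
    rw [← zero_def, map_zero]
  refine ⟨fun n => kc (e n) (he n) - kc (f n) (hf n),
    ⟨1, 1, isPr_one, 0, 0, isPr_zero, e, he, f, hf, ?_, h2, h3, fun n => rfl⟩, ?_⟩
  · rw [h0, sub_zero]
  · intro hev
    apply h
    have h4 := h2 0 0
    refine h4.congr' (hev.mono fun n hn => ?_)
    have hn' : kc (e n) (he n) = 0 := by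
      have h9 : kc (e n) (he n) - kc (f n) (hf n) = 0 := not_not.1 hn
      rw [hf0 n, sub_zero] at h9
      exact h9
    have h5 := congrArg (trM (S.k n)) hn'
    rw [trM_kc, map_zero] at h5
    have h6 : MvN (flat (e n)) (0 : Matrix (Fin 0) (Fin 0) ℂ) :=
      mvn_of_trace_eq (he n).flat isPr_zero (by rw [h5]; simp)
    obtain ⟨v, hv, -⟩ := h6
    have h7 : flat (e n) = 0 := by
      rw [← hv]
      ext x y
      simp [Matrix.mul_apply]
    have h8 : e n 0 0 = 0 := by
      ext c d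
      exact congrFun (congrFun h7 (0, c)) (0, d)
    rw [h8, zero_sub, norm_neg]
    rfl

end mat

section inj

variable {A B C : Type u} [CStarAlgebra A] [CStarAlgebra B] [CStarAlgebra C]

/-- If `K₀(A)` is separated by asymptotic homomorphisms to matrix algebras and `K₀(B)` is torsion
free, then the Künneth map of the maximal tensor product is injective on `K₀ ⊗ K₀`. -/
theorem injective_of_matrix {i' : A →⋆ₐ[ℂ] C} {j' : B →⋆ₐ[ℂ] C} (ht : IsTensor i' j')
    (hmax : IsMax i' j') (hB : TorFree (K0 B))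
    (hA : ∀ x : K0 A, x ≠ 0 → ∃ S : MatHom A, Detects S.φ x) :
    Function.Injective (alpha i' j' ht.comm) := by
  rw [injective_iff_map_eq_zero]
  intro z hz
  obtain ⟨r, x, y, hy, rfl⟩ := exists_indep_rep hB z
  refine Finset.sum_eq_zero fun k _ => ?_
  have hk : x k = 0 := by
    by_contra hne
    obtain ⟨S, hS⟩ := hA (x k) hne
    exact undetected ht hmax hy hz (S.probe B) (fun n => torFree_matrix (S.k n)) k hS
  rw [hk, TensorProduct.zero_tmul]

/-- The map `y ↦ [1_A ⊗ y]` is injective if `A` has a non-zero asymptotic homomorphism to matrix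
algebras and `K₀(B)` is torsion free. -/
theorem unit_injective {i' : A →⋆ₐ[ℂ] C} {j' : B →⋆ₐ[ℂ] C} (ht : IsTensor i' j')
    (hmax : IsMax i' j') (hB : TorFree (K0 B))
    (hA : ∃ S : MatHom A, Detects S.φ (kc (1 : Matrix (Fin 1) (Fin 1) A) isPr_one)) (y : K0 B)
    (hy : alpha i' j' ht.comm (kc (1 : Matrix (Fin 1) (Fin 1) A) isPr_one ⊗ₜ[ℤ] y) = 0) :
    y = 0 := by
  by_contra hne
  obtain ⟨S, hS⟩ := hA
  have hli : LinearIndependent ℤ (fun _ : Fin 1 => y) := by
    rw [Fintype.linearIndependent_iff]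
    intro g hg k
    have := hB.inst
    rw [Fin.sum_univ_one] at hg
    rcases smul_eq_zero.1 hg with h | h
    · rw [Subsingleton.elim k 0]; exact h
    · exact absurd h hne
  refine undetected ht hmax (x := fun _ : Fin 1 => kc (1 : Matrix (Fin 1) (Fin 1) A) isPr_one)
    hli ?_ (S.probe B) (fun n => torFree_matrix (S.k n)) 0 hS
  simpa using hy

/-- The Künneth map is injective on `K₀ ⊗ K₀` if moreover `K₀(A)` is torsion free of rank one. -/
theorem injective_of_rank_one {i' : A →⋆ₐ[ℂ] C} {j' : B →⋆ₐ[ℂ] C} (ht : IsTensor i' j')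
    (hmax : IsMax i' j') (hB : TorFree (K0 B)) (hA0 : TorFree (K0 A))
    (hA : ∃ S : MatHom A, Detects S.φ (kc (1 : Matrix (Fin 1) (Fin 1) A) isPr_one))
    (hr : ∀ x : K0 A, ∃ (N : ℕ) (M : ℤ), N ≠ 0 ∧
      N • x = M • kc (1 : Matrix (Fin 1) (Fin 1) A) isPr_one) :
    Function.Injective (alpha i' j' ht.comm) := by
  rw [injective_iff_map_eq_zero]
  intro z hz
  obtain ⟨r, x, y, hy, rfl⟩ := exists_indep_rep hB z
  set e := kc (1 : Matrix (Fin 1) (Fin 1) A) isPr_one with he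
  choose N M hN hM using fun k => hr (x k)
  set Q : ℕ := ∏ k, N k with hQ
  have hQ0 : Q ≠ 0 := Finset.prod_ne_zero_iff.2 fun k _ => hN k
  have h1 : ∀ k, ∃ M' : ℤ, Q • x k = M' • e := by
    intro k
    obtain ⟨c, hc⟩ : N k ∣ Q := Finset.dvd_prod_of_mem N (Finset.mem_univ k)
    refine ⟨c * M k, ?_⟩
    rw [hc, mul_comm, mul_smul, hM k, mul_smul, natCast_zsmul]
  choose M' hM' using h1
  have h2 : alpha i' j' ht.comm (e ⊗ₜ[ℤ] ∑ k, M' k • y k) = 0 := by
    have h3 : e ⊗ₜ[ℤ] ∑ k, M' k • y k = Q • ∑ k, x k ⊗ₜ[ℤ] y k := by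
      rw [TensorProduct.tmul_sum, Finset.smul_sum]
      refine Finset.sum_congr rfl fun k _ => ?_
      rw [← TensorProduct.smul_tmul, ← hM' k]
      rw [TensorProduct.smul_tmul']
    rw [h3, map_nsmul, hz, smul_zero]
  have h4 := unit_injective ht hmax hB hA _ h2
  have h5 := Fintype.linearIndependent_iff.1 hy M' h4
  refine Finset.sum_eq_zero fun k _ => ?_
  have hk : x k = 0 := by
    apply hA0 Q (x k) hQ0
    rw [hM' k, h5 k, zero_smul]
  rw [hk, TensorProduct.zero_tmul]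

end inj

end Pool.Agent.KU
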