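import Mathlib

/-! # Biadditive maps on Grothendieck groups -/

set_option autoImplicit false

open scoped TensorProduct

namespace Pool.Agent.KU

section generic

variable {M N P : Type*} [AddCommMonoid M] [AddCommMonoid N] [AddCommMonoid P]

theorem gr_lift_of {G : Type*} [AddCommGroup G] (f : M →+ G) (x : M) :
    Algebra.GrothendieckAddGroup.lift f (Algebra.GrothendieckAddGroup.of x) = f x :=
  DFunLike.congr_fun ((Algebra.GrothendieckAddGroup.lift (M := M) (G := G)).symm_apply_apply f) x

theorem gr_hom_ext {G : Type*} [AddCommGroup G] {f g : Algebra.GrothendieckAddGroup M →+ G}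
    (h : ∀ x : M, f (Algebra.GrothendieckAddGroup.of x) = g (Algebra.GrothendieckAddGroup.of x)) :
    f = g := by
  apply (Algebra.GrothendieckAddGroup.lift (M := M) (G := G)).symm.injective
  ext x
  exact h x

/-- The homomorphism of Grothendieck groups induced by a homomorphism of monoids. -/
noncomputable def grMap (f : M →+ N) :
    Algebra.GrothendieckAddGroup M →+ Algebra.GrothendieckAddGroup N :=
  Algebra.GrothendieckAddGroup.lift (Algebra.GrothendieckAddGroup.of.comp f)

theorem grMap_of (f : M →+ N) (x : M) : grMap f (Algebra.GrothendieckAddGroup.of x) =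
    Algebra.GrothendieckAddGroup.of (f x) := by
  unfold grMap
  rw [gr_lift_of]
  rfl

theorem grMap_zero : grMap (0 : M →+ N) = 0 := by
  apply gr_hom_ext
  intro x
  rw [grMap_of, AddMonoidHom.zero_apply, map_zero, AddMonoidHom.zero_apply]

theorem grMap_add (f g : M →+ N) : grMap (f + g) = grMap f + grMap g := by
  apply gr_hom_ext
  intro x
  rw [grMap_of, AddMonoidHom.add_apply, map_add, AddMonoidHom.add_apply, grMap_of, grMap_of]

/-- The biadditive map of Grothendieck groups induced by a biadditive map of monoids. -/
noncomputable def grBi (f : M →+ N →+ P) : Algebra.GrothendieckAddGroup M →+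
    Algebra.GrothendieckAddGroup N →+ Algebra.GrothendieckAddGroup P :=
  Algebra.GrothendieckAddGroup.lift
    { toFun := fun x => grMap (f x)
      map_zero' := by rw [map_zero, grMap_zero]
      map_add' := fun x y => by rw [map_add, grMap_add] }

theorem grBi_of (f : M →+ N →+ P) (x : M) (y : N) :
    grBi f (Algebra.GrothendieckAddGroup.of x) (Algebra.GrothendieckAddGroup.of y) =
      Algebra.GrothendieckAddGroup.of (f x y) := by
  unfold grBi
  rw [gr_lift_of]
  exact grMap_of (f x) y

theorem biadd_zsmul {G H K : Type*} [AddCommGroup G] [AddCommGroup H] [AddCommGroup K]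
    (f : G →+ H →+ K) (n : ℤ) (x : G) (y : H) : f (n • x) y = f x (n • y) := by
  simp

/-- The homomorphism on the tensor product of two abelian groups given by a biadditive map. -/
noncomputable def tensLift {G H K : Type*} [AddCommGroup G] [AddCommGroup H] [AddCommGroup K]
    (f : G →+ H →+ K) : G ⊗[ℤ] H →+ K :=
  TensorProduct.liftAddHom f (biadd_zsmul f)

end generic

end Pool.Agent.KU
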