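import Pool.Agent.helper95.KU.Symm

/-! # The kernel of the Künneth map consists of invisible classes -/

set_option autoImplicit false

open Matrix Fintype Filter Topology
open scoped TensorProduct

namespace Pool.Agent.KU

universe u v w

/-- A class `x ∈ K₀(A)` is invisible (relative to `B`) if it is detected neither by an asymptotic
homomorphism from `A` to matrix algebras over `ℂ`, nor by an asymptotic homomorphism to any
sequence of C*-algebras `D n` with torsion free `K₀` for which the Künneth map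
`K₀(D n) ⊗ K₀(B) → K₀(F n)` is injective. -/
def Invisible (A B : Type u) [CStarAlgebra A] [CStarAlgebra B] (x : K0 A) : Prop :=
  (∀ S : MatHom A, ¬ Detects S.φ x) ∧
  ∀ P : Probe.{u, v, w} A B, (∀ n, TorFree (K0 (P.D n))) → ¬ Detects P.φ x

theorem linearIndependent_nsmul {ι M : Type*} [Fintype ι] [AddCommGroup M] {x : ι → M} {N : ℕ}
    (hN : N ≠ 0) (hx : LinearIndependent ℤ x) : LinearIndependent ℤ fun k => N • x k := by
  rw [Fintype.linearIndependent_iff] at hx ⊢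
  intro g hg k
  have h1 := hx (fun k => g k * N) (by
    rw [← hg]
    exact Finset.sum_congr rfl fun k _ => by rw [mul_smul, natCast_zsmul]) k
  exact (mul_eq_zero.1 h1).resolve_right (by exact_mod_cast hN)

variable {A B C : Type u} [CStarAlgebra A] [CStarAlgebra B] [CStarAlgebra C]

theorem invisible_of_indep {i : A →⋆ₐ[ℂ] C} {j : B →⋆ₐ[ℂ] C} (ht : IsTensor i j)
    (hmax : IsMax i j) {m : ℕ} {x : Fin m → K0 A} {y : Fin m → K0 B}
    (hy : LinearIndependent ℤ y) (hz : alpha i j ht.comm (∑ k, x k ⊗ₜ[ℤ] y k) = 0) (k : Fin m) :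
    Invisible.{u, v, w} A B (x k) :=
  ⟨fun S hS => undetected ht hmax hy hz (S.probe B) (fun n => torFree_matrix (S.k n)) k hS,
    fun P hP => undetected ht hmax hy hz P hP k⟩

theorem kernel_invisible {i : A →⋆ₐ[ℂ] C} {j : B →⋆ₐ[ℂ] C} (ht : IsTensor i j)
    (hmax : IsMax i j) (hB : TorFree (K0 B)) (z : K0 A ⊗[ℤ] K0 B)
    (hz : alpha i j ht.comm z = 0) :
    ∃ (s r : ℕ) (x : Fin s → K0 A) (y : Fin s → K0 B) (t : Fin r → K0 A) (w : Fin r → K0 B),
      z = ∑ k, x k ⊗ₜ[ℤ] y k + ∑ k, t k ⊗ₜ[ℤ] w k ∧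
      LinearIndependent ℤ x ∧ LinearIndependent ℤ y ∧
      (∀ k, Invisible.{u, v, w} A B (x k)) ∧ (∀ k, Invisible.{u, v, w} B A (y k)) ∧
      ∀ k, ∃ N : ℕ, N ≠ 0 ∧ N • t k = 0 := by
  obtain ⟨s, r, x, y, t, w, hx, hy, ht', rfl⟩ := exists_bi_indep_rep hB z
  refine ⟨s, r, x, y, t, w, rfl, hx, hy, ?_, ?_, ht'⟩
  all_goals
    choose N hN hNt using ht'
    set Q : ℕ := ∏ k, N k with hQ
    have hQ0 : Q ≠ 0 := Finset.prod_ne_zero_iff.2 fun k _ => hN k
    have hQt : ∀ k, Q • t k = 0 := by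
      intro k
      obtain ⟨c, hc⟩ : N k ∣ Q := Finset.dvd_prod_of_mem N (Finset.mem_univ k)
      rw [hc, mul_comm, mul_smul, hNt k, smul_zero]
    have hQz : Q • (∑ k, x k ⊗ₜ[ℤ] y k + ∑ k, t k ⊗ₜ[ℤ] w k) = Q • ∑ k, x k ⊗ₜ[ℤ] y k := by
      have h0 : Q • ∑ k, t k ⊗ₜ[ℤ] w k = 0 := by
        rw [Finset.smul_sum]
        refine Finset.sum_eq_zero fun k _ => ?_
        rw [TensorProduct.smul_tmul', hQt k, TensorProduct.zero_tmul]
      rw [smul_add, h0, add_zero]
    have hz1 : alpha i j ht.comm (Q • ∑ k, x k ⊗ₜ[ℤ] y k) = 0 := by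
      rw [← hQz, map_nsmul, hz, smul_zero]
  · have h1 : Q • ∑ k, x k ⊗ₜ[ℤ] y k = ∑ k, x k ⊗ₜ[ℤ] (Q • y k) := by
      rw [Finset.smul_sum]
      exact Finset.sum_congr rfl fun k _ => by rw [TensorProduct.tmul_smul]
    rw [h1] at hz1
    exact invisible_of_indep ht hmax (linearIndependent_nsmul hQ0 hy) hz1
  · have h1 : Q • ∑ k, x k ⊗ₜ[ℤ] y k = ∑ k, (Q • x k) ⊗ₜ[ℤ] y k := by
      rw [Finset.smul_sum]
      exact Finset.sum_congr rfl fun k _ => by rw [TensorProduct.smul_tmul']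
    rw [h1, ← alpha_symm ht.comm ht.symm.comm] at hz1
    exact invisible_of_indep ht.symm (hmax.symm ht.comm) (linearIndependent_nsmul hQ0 hx) hz1

end Pool.Agent.KU
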