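import Pool.Agent.helper95.KU.Val

/-! # The kernel of the Künneth map on `K₀ ⊗ K₀` -/

set_option autoImplicit false

open Matrix Fintype Filter Topology
open scoped TensorProduct

namespace Pool.Agent.KU

universe u v w

section compl

variable {A : Type*} [CStarAlgebra A] {ι : Type*} [Fintype ι] [DecidableEq ι]

theorem isPr_one : IsPr (1 : Matrix ι ι A) := ⟨by simp, by simp⟩

theorem IsPr.compl {p : Matrix ι ι A} (hp : IsPr p) : IsPr (1 - p) := by
  refine ⟨?_, ?_⟩
  · rw [sub_mul, one_mul, mul_sub, mul_one, hp.1, sub_self, sub_zero]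
  · rw [conjTranspose_sub, conjTranspose_one, hp.2]

theorem cls_add_compl {p : Matrix ι ι A} (hp : IsPr p) :
    cls p hp + cls (1 - p) hp.compl = cls (1 : Matrix ι ι A) isPr_one := by
  rw [cls_add, cls_eq_iff]
  refine ⟨fromCols p (1 - p), ?_, ?_⟩
  · rw [conjTranspose_fromCols_eq_fromRows_conjTranspose, fromRows_mul_fromCols, hp.2, hp.compl.2, hp.1,
      hp.compl.1, mul_sub, mul_one, hp.1, sub_self, sub_mul, one_mul, hp.1, sub_self]
  · rw [conjTranspose_fromCols_eq_fromRows_conjTranspose, fromCols_mul_fromRows, hp.2, hp.compl.2, hp.1,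
      hp.compl.1, add_sub_cancel]

theorem V.exists_compl (c : V A) : ∃ (m : ℕ) (c' : V A),
    c + c' = cls (1 : Matrix (Fin m) (Fin m) A) isPr_one := by
  obtain ⟨m, p, hp, rfl⟩ := c.exists_rep
  exact ⟨m, _, cls_add_compl hp⟩

end compl

section near

variable {A : Type u} [CStarAlgebra A] {D : ℕ → Type v} [∀ n, CStarAlgebra (D n)]
  {φ : ∀ n, A →ₗ[ℂ] D n}

/-- Along an asymptotic homomorphism a projection is mapped close to projections. -/
theorem exists_near_seq (hφ : IsAsymHom φ) {ι : Type} [Fintype ι] [DecidableEq ι]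
    {p : Matrix ι ι A} (hp : IsPr p) : ∃ e : ∀ n, Matrix ι ι (D n), (∀ n, IsPr (e n)) ∧
      ∀ a b, Tendsto (fun n => ‖e n a b - φ n (p a b)‖) atTop (𝓝 0) := by
  classical
  set X : ∀ n, Matrix ι ι (D n) := fun n => p.map (φ n) with hX
  choose K hK using fun a b => hφ.bdd (p a b)
  set S : ℝ := ∑ a, ∑ b, K a b with hS
  have hSX : ∀ n, ∑ a, ∑ b, ‖X n a b‖ ≤ S := fun n =>
    Finset.sum_le_sum fun a _ => Finset.sum_le_sum fun b _ => hK a b n
  have hS0 : 0 ≤ S := (Finset.sum_nonneg fun a _ => Finset.sum_nonneg fun b _ =>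
    norm_nonneg _).trans (hSX 0)
  set s : ℕ → ℝ := fun n => (∑ a, ∑ b, ‖(X n * X n - X n) a b‖) +
    ∑ a, ∑ b, ‖((X n)ᴴ - X n) a b‖ with hs
  have hs0 : Tendsto s atTop (𝓝 0) := by
    have h1 : ∀ a b, Tendsto (fun n => ‖(X n * X n - X n) a b‖) atTop (𝓝 0) := by
      intro a b
      have h2 := tendsto_norm_sum (F := D) Finset.univ (f := fun c n =>
        -(φ n (p a c * p c b) - φ n (p a c) * φ n (p c b))) (fun c _ => by
          refine (hφ.mul (p a c) (p c b)).congr fun n => ?_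
          rw [norm_neg])
      refine h2.congr fun n => ?_
      congr 1
      have h3 := congrFun (congrFun hp.1 a) b
      rw [Matrix.mul_apply] at h3
      rw [Matrix.sub_apply, Matrix.mul_apply]
      simp only [hX, Matrix.map_apply]
      rw [← h3, map_sum, ← Finset.sum_sub_distrib]
      refine Finset.sum_congr rfl fun c _ => ?_
      abel
    have h1' : ∀ a b, Tendsto (fun n => ‖((X n)ᴴ - X n) a b‖) atTop (𝓝 0) := by
      intro a b
      refine (hφ.star (p b a)).congr fun n => ?_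
      rw [Matrix.sub_apply, conjTranspose_apply]
      simp only [hX, Matrix.map_apply]
      have h3 := congrFun (congrFun hp.2 a) b
      rw [conjTranspose_apply] at h3
      rw [h3, norm_sub_rev]
    have h4 : Tendsto (fun n => ∑ a, ∑ b, ‖(X n * X n - X n) a b‖) atTop (𝓝 0) := by
      simpa using tendsto_finsetSum Finset.univ fun a (_ : a ∈ Finset.univ) =>
        tendsto_finsetSum Finset.univ fun b (_ : b ∈ Finset.univ) => h1 a b
    have h5 : Tendsto (fun n => ∑ a, ∑ b, ‖((X n)ᴴ - X n) a b‖) atTop (𝓝 0) := by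
      simpa using tendsto_finsetSum Finset.univ fun a (_ : a ∈ Finset.univ) =>
        tendsto_finsetSum Finset.univ fun b (_ : b ∈ Finset.univ) => h1' a b
    have h6 := h4.add h5
    rw [add_zero] at h6
    exact h6
  have hex : ∀ n, s n * (S + 3) < 1 / 4 ∧ s n ≤ 1 → ∃ e : Matrix ι ι (D n), IsPr e ∧
      ∀ a b, ‖(e - X n) a b‖ ≤ 2 * (s n * (S + 3)) + s n := by
    intro n hn
    apply exists_isPr_near (hSX n) _ _ hn.1 hn.2
    · exact le_add_of_nonneg_right (Finset.sum_nonneg fun a _ => Finset.sum_nonneg fun b _ =>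
        norm_nonneg _)
    · exact le_add_of_nonneg_left (Finset.sum_nonneg fun a _ => Finset.sum_nonneg fun b _ =>
        norm_nonneg _)
  refine ⟨fun n => if h : s n * (S + 3) < 1 / 4 ∧ s n ≤ 1 then (hex n h).choose else 0,
    fun n => ?_, fun a b => ?_⟩
  · simp only
    split_ifs with h
    · exact (hex n h).choose_spec.1
    · exact isPr_zero
  · have ht : Tendsto (fun n => 2 * (s n * (S + 3)) + s n) atTop (𝓝 0) := by
      have := ((hs0.mul_const (S + 3)).const_mul 2).add hs0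
      simpa using this
    have hev : ∀ᶠ n in atTop, s n * (S + 3) < 1 / 4 ∧ s n ≤ 1 := by
      have h6 : Tendsto (fun n => s n * (S + 3)) atTop (𝓝 0) := by
        simpa using hs0.mul_const (S + 3)
      exact ((tendsto_order.1 h6).2 _ (by norm_num)).and
        (((tendsto_order.1 hs0).2 1 (by norm_num)).mono fun n hn => hn.le)
    refine squeeze_zero' (Eventually.of_forall fun n => norm_nonneg _) (hev.mono fun n hn => ?_) ht
    simp only
    rw [dif_pos hn]
    exact (hex n hn).choose_spec.2 a b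

end near

section follows

variable {A : Type u} [CStarAlgebra A] {D : ℕ → Type v} [∀ n, CStarAlgebra (D n)]

/-- The sequence `g n ∈ K₀(D n)` is a sequence of values of the class `x ∈ K₀(A)` along the
asymptotic homomorphism `φ`: one has `x = [p] - [q]` and `g n = [e n] - [f n]` for projections
`p`, `q` over `A` and `e n`, `f n` over `D n` such that `e n - φ n (p) → 0` and
`f n - φ n (q) → 0` entrywise. -/
def Follows (φ : ∀ n, A →ₗ[ℂ] D n) (x : K0 A) (g : ∀ n, K0 (D n)) : Prop :=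
  ∃ (a : ℕ) (p : Matrix (Fin a) (Fin a) A) (hp : IsPr p) (b : ℕ)
    (q : Matrix (Fin b) (Fin b) A) (hq : IsPr q)
    (e : ∀ n, Matrix (Fin a) (Fin a) (D n)) (he : ∀ n, IsPr (e n))
    (f : ∀ n, Matrix (Fin b) (Fin b) (D n)) (hf : ∀ n, IsPr (f n)),
    x = kc p hp - kc q hq ∧
    (∀ k l, Tendsto (fun n => ‖e n k l - φ n (p k l)‖) atTop (𝓝 0)) ∧
    (∀ k l, Tendsto (fun n => ‖f n k l - φ n (q k l)‖) atTop (𝓝 0)) ∧
    ∀ n, g n = kc (e n) (he n) - kc (f n) (hf n)

/-- Every class has values along every asymptotic homomorphism. -/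
theorem exists_follows {φ : ∀ n, A →ₗ[ℂ] D n} (hφ : IsAsymHom φ) (x : K0 A) :
    ∃ g, Follows φ x g := by
  obtain ⟨a, p, hp, b, q, hq, h1⟩ := x.exists_rep
  obtain ⟨e, he, h2⟩ := exists_near_seq hφ hp
  obtain ⟨f, hf, h3⟩ := exists_near_seq hφ hq
  exact ⟨_, a, p, hp, b, q, hq, e, he, f, hf, h1, h2, h3, fun _ => rfl⟩

/-- The asymptotic homomorphism `φ` detects `x ∈ K₀(A)`: some sequence of values of `x` along `φ`
is non-zero infinitely often. -/
def Detects (φ : ∀ n, A →ₗ[ℂ] D n) (x : K0 A) : Prop :=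
  ∃ g : ∀ n, K0 (D n), Follows φ x g ∧ ∃ᶠ n in atTop, g n ≠ 0

end follows

section main

/-- The ranges of `i` and `j` commute and the Künneth map `K₀(D) ⊗ K₀(B) → K₀(F)` is injective. -/
def KInj {D : Type v} {B : Type u} {F : Type w} [CStarAlgebra D] [CStarAlgebra B]
    [CStarAlgebra F] (i : D →⋆ₐ[ℂ] F) (j : B →⋆ₐ[ℂ] F) : Prop :=
  ∃ hc : ∀ d b, Commute (i d) (j b), Function.Injective (alpha i j hc)

/-- A probe of `(A, B)`: an asymptotic homomorphism `φ n : A → D n` to C*-algebras `D n`, together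
with C*-algebras `F n` containing commuting images of `D n` and `B` such that the Künneth map
`K₀(D n) ⊗ K₀(B) → K₀(F n)` is injective. -/
structure Probe (A B : Type u) [CStarAlgebra A] [CStarAlgebra B] where
  D : ℕ → Type v
  F : ℕ → Type w
  cD : ∀ n, CStarAlgebra (D n)
  cF : ∀ n, CStarAlgebra (F n)
  i : ∀ n, D n →⋆ₐ[ℂ] F n
  j : ∀ n, B →⋆ₐ[ℂ] F n
  inj : ∀ n, KInj (i n) (j n)
  φ : ∀ n, A →ₗ[ℂ] D n
  asym : IsAsymHom φ

attribute [instance] Probe.cD Probe.cF

theorem Probe.comm {A B : Type u} [CStarAlgebra A] [CStarAlgebra B] (P : Probe.{u, v, w} A B)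
    (n : ℕ) (d : P.D n) (b : B) : Commute (P.i n d) (P.j n b) := (P.inj n).choose d b

theorem Probe.injective {A B : Type u} [CStarAlgebra A] [CStarAlgebra B] (P : Probe.{u, v, w} A B)
    (n : ℕ) : Function.Injective (alpha (P.i n) (P.j n) (P.comm n)) := (P.inj n).choose_spec

variable {A B C : Type u} [CStarAlgebra A] [CStarAlgebra B] [CStarAlgebra C]

/-- **Main theorem.** An element of the kernel of `K₀(A) ⊗ K₀(B) → K₀(C)`, where `C` is the maximal
tensor product of `A` and `B`, is mapped to zero by every probe. -/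
theorem vanish {i' : A →⋆ₐ[ℂ] C} {j' : B →⋆ₐ[ℂ] C} (ht : IsTensor i' j')
    (hmax : IsMax i' j') {m : ℕ} {x : Fin m → K0 A} {y : Fin m → K0 B}
    (hz : alpha i' j' ht.comm (∑ k, x k ⊗ₜ[ℤ] y k) = 0) (P : Probe.{u, v, w} A B)
    {G : Fin m → ∀ n, K0 (P.D n)} (hG : ∀ k, Follows P.φ (x k) (G k)) :
    ∀ᶠ n in atTop, ∑ k, G k n ⊗ₜ[ℤ] y k = 0 := by
  choose a p hp b q hq e he f hf hx hce hcf hGe using hG
  choose c r hr d s hs hy' using fun k => (y k).exists_rep
  have hc' := ht.comm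
  -- the two sides in `V(C)`
  set c1 : V C := ∑ k, (prodV i' j' hc' (cls (p k) (hp k)) (cls (r k) (hr k)) +
    prodV i' j' hc' (cls (q k) (hq k)) (cls (s k) (hs k))) with hc1
  set c2 : V C := ∑ k, (prodV i' j' hc' (cls (p k) (hp k)) (cls (s k) (hs k)) +
    prodV i' j' hc' (cls (q k) (hq k)) (cls (r k) (hr k))) with hc2
  have h0 : K0.of c1 = K0.of c2 := by
    rw [← sub_eq_zero, ← hz, map_sum (alpha i' j' ht.comm), hc1, hc2,
      map_sum K0.of, map_sum K0.of,
      ← Finset.sum_sub_distrib]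
    refine Finset.sum_congr rfl fun k _ => ?_
    rw [alpha_tmul, hx k, hy' k, map_sub, map_sub, AddMonoidHom.sub_apply,
      AddMonoidHom.sub_apply]
    unfold kc
    rw [alpha₂_of, alpha₂_of, alpha₂_of, alpha₂_of, map_add, map_add]
    abel
  obtain ⟨m', hm⟩ : ∃ (m' : ℕ),
      c1 + cls (1 : Matrix (Fin m') (Fin m') C) isPr_one =
      c2 + cls (1 : Matrix (Fin m') (Fin m') C) isPr_one := by
    obtain ⟨t, h1⟩ := K0.of_eq h0
    obtain ⟨m', t', ht2⟩ := V.exists_compl t
    refine ⟨m', ?_⟩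
    rw [← ht2, ← add_assoc, ← add_assoc, add_comm c1, add_comm c2, h1]
  -- asymptotic values
  have v1 : Val i' j' P.φ P.i P.j c1 (fun n => ∑ k,
      (alpha₂ (P.i n) (P.j n) (P.comm n) (kc (e k n) (he k n)) (kc (r k) (hr k)) +
      alpha₂ (P.i n) (P.j n) (P.comm n) (kc (f k n) (hf k n)) (kc (s k) (hs k)))) :=
    Val.sum Finset.univ (g := fun k n =>
      alpha₂ (P.i n) (P.j n) (P.comm n) (kc (e k n) (he k n)) (kc (r k) (hr k)) +
      alpha₂ (P.i n) (P.j n) (P.comm n) (kc (f k n) (hf k n)) (kc (s k) (hs k))) fun k _ =>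
      (Val.prod hc' P.comm (hp k) (hr k) (he k) (hce k)).add
      (Val.prod hc' P.comm (hq k) (hs k) (hf k) (hcf k))
  have v2 : Val i' j' P.φ P.i P.j c2 (fun n => ∑ k,
      (alpha₂ (P.i n) (P.j n) (P.comm n) (kc (e k n) (he k n)) (kc (s k) (hs k)) +
      alpha₂ (P.i n) (P.j n) (P.comm n) (kc (f k n) (hf k n)) (kc (r k) (hr k)))) :=
    Val.sum Finset.univ (g := fun k n =>
      alpha₂ (P.i n) (P.j n) (P.comm n) (kc (e k n) (he k n)) (kc (s k) (hs k)) +
      alpha₂ (P.i n) (P.j n) (P.comm n) (kc (f k n) (hf k n)) (kc (r k) (hr k))) fun k _ =>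
      (Val.prod hc' P.comm (hp k) (hs k) (he k) (hce k)).add
      (Val.prod hc' P.comm (hq k) (hr k) (hf k) (hcf k))
  obtain ⟨U, v3⟩ : ∃ U, Val i' j' P.φ P.i P.j (cls (1 : Matrix (Fin m') (Fin m') C) isPr_one) U := by
    obtain ⟨g, hg, hcg⟩ := exists_near_seq P.asym (isPr_one : IsPr (1 : Matrix (Fin m') (Fin m') A))
    have h1 := Val.prod hc' P.comm (isPr_one : IsPr (1 : Matrix (Fin m') (Fin m') A))
      (isPr_one : IsPr (1 : Matrix (Fin 1) (Fin 1) B)) hg hcg
    have h2 : prodV i' j' hc' (cls (1 : Matrix (Fin m') (Fin m') A) isPr_one)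
        (cls (1 : Matrix (Fin 1) (Fin 1) B) isPr_one) =
        cls (1 : Matrix (Fin m') (Fin m') C) isPr_one := by
      rw [prodV_cls, cls_eq_iff]
      have h3 : kron i' j' (1 : Matrix (Fin m') (Fin m') A) (1 : Matrix (Fin 1) (Fin 1) B) =
          (1 : Matrix (Fin m' × Fin 1) (Fin m' × Fin 1) C) := by
        ext z z'
        rw [kron_apply]
        by_cases hz1 : z = z'
        · subst hz1; simp
        · have : z.1 ≠ z'.1 := by
            intro h
            exact hz1 (Prod.ext h (Subsingleton.elim _ _))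
          rw [Matrix.one_apply_ne this, Matrix.one_apply_ne hz1, map_zero, zero_mul]
      rw [h3]
      have h4 := MvN.submatrix (isPr_one : IsPr (1 : Matrix (Fin m' × Fin 1) (Fin m' × Fin 1) C))
        (Equiv.prodUnique (Fin m') (Fin 1)).symm
      rwa [Matrix.submatrix_one_equiv] at h4
    rw [← h2]
    exact ⟨_, h1⟩
  have hev := Val.unique ht hmax P.asym P.comm (v1.add v3) (by rw [hm]; exact v2.add v3)
  refine hev.mono fun n hn2 => ?_
  have hn3 : ∑ k, (alpha₂ (P.i n) (P.j n) (P.comm n) (kc (e k n) (he k n)) (kc (r k) (hr k)) +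
      alpha₂ (P.i n) (P.j n) (P.comm n) (kc (f k n) (hf k n)) (kc (s k) (hs k))) =
      ∑ k, (alpha₂ (P.i n) (P.j n) (P.comm n) (kc (e k n) (he k n)) (kc (s k) (hs k)) +
      alpha₂ (P.i n) (P.j n) (P.comm n) (kc (f k n) (hf k n)) (kc (r k) (hr k))) :=
    add_right_cancel hn2
  have hn4 : alpha (P.i n) (P.j n) (P.comm n)
      (∑ k, G k n ⊗ₜ[ℤ] y k) = 0 := by
    rw [map_sum]
    rw [← sub_eq_zero, ← Finset.sum_sub_distrib] at hn3
    rw [← hn3]
    refine Finset.sum_congr rfl fun k _ => ?_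
    rw [hGe k n, alpha_tmul, hy' k, map_sub, map_sub, AddMonoidHom.sub_apply,
      AddMonoidHom.sub_apply]
    abel
  exact P.injective n (by rw [hn4, map_zero])

/-- If `∑ x k ⊗ y k` with linearly independent `y k` is in the kernel of the Künneth map, then no
probe with torsion free groups `K₀(D n)` detects any of the `x k`. -/
theorem undetected {i' : A →⋆ₐ[ℂ] C} {j' : B →⋆ₐ[ℂ] C} (ht : IsTensor i' j')
    (hmax : IsMax i' j')
    {m : ℕ} {x : Fin m → K0 A} {y : Fin m → K0 B} (hy : LinearIndependent ℤ y)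
    (hz : alpha i' j' ht.comm (∑ k, x k ⊗ₜ[ℤ] y k) = 0) (P : Probe.{u, v, w} A B)
    (hP : ∀ n, TorFree (K0 (P.D n))) (k₀ : Fin m) : ¬ Detects P.φ (x k₀) := by
  rintro ⟨g, hg, hfr⟩
  have key : ∀ k, ∃ h, Follows P.φ (x k) h ∧ (k = k₀ → ∃ᶠ n in atTop, h n ≠ 0) := by
    intro k
    by_cases hk : k = k₀
    · subst hk
      exact ⟨g, hg, fun _ => hfr⟩
    · obtain ⟨h, hh⟩ := exists_follows P.asym (x k)
      exact ⟨h, hh, fun e => absurd e hk⟩
  choose G hG hGf using key
  obtain ⟨n, hn1, hn2⟩ := ((hGf k₀ rfl).and_eventually (vanish ht hmax hz P hG)).exists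
  exact hn1 (eq_zero_of_sum_tmul (hP n) hy hn2 k₀)

end main

end Pool.Agent.KU
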