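import Pool.Agent.helper95.KU.Main

/-! # Matrix algebras as probes -/

set_option autoImplicit false

open Matrix Fintype Filter Topology
open scoped TensorProduct

namespace Pool.Agent.KU

universe u v w

section complex

variable {ι κ : Type*} [Fintype ι] [Fintype κ] [DecidableEq ι] [DecidableEq κ]

/-- Every projection over `ℂ` is equivalent to an identity matrix. -/
theorem proj_mvn_one {p : Matrix ι ι ℂ} (hp : IsPr p) :
    ∃ r : ℕ, MvN p (1 : Matrix (Fin r) (Fin r) ℂ) := by
  have hH : p.IsHermitian := hp.2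
  set U : Matrix ι ι ℂ := (hH.eigenvectorUnitary : Matrix ι ι ℂ) with hU
  have hUU : U * Uᴴ = 1 := by
    have := Unitary.coe_mul_star_self hH.eigenvectorUnitary
    exact this
  have hUU' : Uᴴ * U = 1 := by
    have := Unitary.coe_star_mul_self hH.eigenvectorUnitary
    exact this
  set lam : ι → ℂ := fun i => ((hH.eigenvalues i : ℝ) : ℂ) with hlam
  have hspec : p = U * diagonal lam * Uᴴ := by
    have := hH.spectral_theorem
    rw [Unitary.conjStarAlgAut_apply] at this
    exact this
  have hdiag : diagonal lam * diagonal lam = diagonal lam := by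
    have h1 : Uᴴ * p * U = diagonal lam := by
      rw [hspec]
      calc Uᴴ * (U * diagonal lam * Uᴴ) * U = (Uᴴ * U) * diagonal lam * (Uᴴ * U) := by
            simp only [Matrix.mul_assoc]
        _ = diagonal lam := by rw [hUU', Matrix.one_mul, Matrix.mul_one]
    rw [← h1]
    calc Uᴴ * p * U * (Uᴴ * p * U) = Uᴴ * p * (U * Uᴴ) * p * U := by
          simp only [Matrix.mul_assoc]
      _ = Uᴴ * (p * p) * U := by rw [hUU, Matrix.mul_one]; simp only [Matrix.mul_assoc]
      _ = Uᴴ * p * U := by rw [hp.1]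
  have hl : ∀ i, lam i = 0 ∨ lam i = 1 := by
    intro i
    have h1 := congrFun (congrFun hdiag i) i
    rw [diagonal_mul_diagonal, diagonal_apply_eq, diagonal_apply_eq] at h1
    have h2 : lam i * (lam i - 1) = 0 := by
      rw [mul_sub, mul_one, h1, sub_self]
    rcases mul_eq_zero.1 h2 with h | h
    · exact Or.inl h
    · exact Or.inr (sub_eq_zero.1 h)
  classical
  -- the eigenvectors of the eigenvalue one
  set T := {i : ι // lam i = 1} with hT
  have h1 : MvN p (1 : Matrix T T ℂ) := by
    refine ⟨(Uᴴ).submatrix Subtype.val id, ?_, ?_⟩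
    · rw [conjTranspose_submatrix, conjTranspose_conjTranspose]
      ext a b
      rw [Matrix.mul_apply]
      simp only [Matrix.submatrix_apply, id]
      have h2 : p a b = ∑ i, U a i * lam i * Uᴴ i b := by
        conv_lhs => rw [hspec]
        rw [Matrix.mul_apply]
        refine Finset.sum_congr rfl fun i _ => ?_
        rw [mul_diagonal]
      rw [h2]
      have h3 : ∀ i, U a i * lam i * Uᴴ i b = if lam i = 1 then U a i * Uᴴ i b else 0 := by
        intro i
        rcases hl i with h | h
        · rw [h]; simp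
        · rw [h]; simp
      rw [Finset.sum_congr rfl fun i _ => h3 i, ← Finset.sum_filter]
      symm
      exact Finset.sum_subtype (Finset.univ.filter fun i => lam i = 1)
        (fun i => by simp) (fun i => U a i * Uᴴ i b)
    · rw [conjTranspose_submatrix, conjTranspose_conjTranspose]
      ext a b
      rw [Matrix.mul_apply]
      simp only [Matrix.submatrix_apply, id]
      have h2 := congrFun (congrFun hUU' a.1) b.1
      rw [Matrix.mul_apply] at h2
      rw [h2]
      by_cases hab : a = b
      · subst hab; rw [Matrix.one_apply_eq, Matrix.one_apply_eq]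
      · have : a.1 ≠ b.1 := fun h => hab (Subtype.ext h)
        rw [Matrix.one_apply_ne this, Matrix.one_apply_ne hab]
  refine ⟨Fintype.card T, ?_⟩
  have h2 := MvN.submatrix (isPr_one : IsPr (1 : Matrix T T ℂ)) (Fintype.equivFin T).symm
  rw [Matrix.submatrix_one_equiv] at h2
  exact h1.trans hp isPr_one h2

theorem MvN.trace_eq {p : Matrix ι ι ℂ} {q : Matrix κ κ ℂ} (h : MvN p q) :
    p.trace = q.trace := by
  obtain ⟨v, rfl, rfl⟩ := h
  exact Matrix.trace_mul_comm _ _

theorem mvn_of_trace_eq {p : Matrix ι ι ℂ} {q : Matrix κ κ ℂ} (hp : IsPr p) (hq : IsPr q)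
    (h : p.trace = q.trace) : MvN p q := by
  obtain ⟨r, hr⟩ := proj_mvn_one hp
  obtain ⟨s, hs⟩ := proj_mvn_one hq
  have h1 : (r : ℂ) = s := by
    have e1 := hr.trace_eq
    have e2 := hs.trace_eq
    rw [Matrix.trace_one, Fintype.card_fin] at e1 e2
    rw [← e1, ← e2, h]
  have h2 : r = s := by exact_mod_cast h1
  subst h2
  exact hr.trans hp hq hs.symm

end complex

section matC

attribute [local instance] CStarAlgebra.spectralOrder CStarAlgebra.spectralOrderedRing

/-- The C*-algebra of the `k × k` matrices over a C*-algebra. -/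
noncomputable instance matC (R : Type*) [CStarAlgebra R] (k : ℕ) :
    CStarAlgebra (CStarMatrix (Fin k) (Fin k) R) := inferInstance

end matC

section flat

variable {R : Type*} [CStarAlgebra R] {k : ℕ}
variable {ι κ μ : Type*} [Fintype ι] [Fintype κ] [Fintype μ]

/-- Matrices over `k × k` matrices as matrices. -/
def flat {ι κ : Type*} (p : Matrix ι κ (CStarMatrix (Fin k) (Fin k) R)) :
    Matrix (ι × Fin k) (κ × Fin k) R :=
  Matrix.of fun x y => p x.1 y.1 x.2 y.2

/-- The inverse of `flat`. -/
def unflat {ι κ : Type*} (p : Matrix (ι × Fin k) (κ × Fin k) R) :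
    Matrix ι κ (CStarMatrix (Fin k) (Fin k) R) :=
  Matrix.of fun a b => CStarMatrix.ofMatrix (Matrix.of fun c d => p (a, c) (b, d))

theorem flat_unflat {ι κ : Type*} (p : Matrix (ι × Fin k) (κ × Fin k) R) :
    flat (unflat p) = p := rfl

theorem flat_inj {ι κ : Type*} {p q : Matrix ι κ (CStarMatrix (Fin k) (Fin k) R)}
    (h : flat p = flat q) : p = q := by
  ext a b c d
  exact congrFun (congrFun h (a, c)) (b, d)

theorem flat_mul (p : Matrix μ ι (CStarMatrix (Fin k) (Fin k) R))
    (q : Matrix ι κ (CStarMatrix (Fin k) (Fin k) R)) : flat (p * q) = flat p * flat q := by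
  ext x y
  rw [Matrix.mul_apply, Fintype.sum_prod_type]
  change (p * q) x.1 y.1 x.2 y.2 = _
  rw [Matrix.mul_apply]
  have h1 : ∀ (s : Finset ι) (f : ι → CStarMatrix (Fin k) (Fin k) R) (c d : Fin k),
      (∑ a ∈ s, f a) c d = ∑ a ∈ s, f a c d := by
    intro s f c d
    classical
    induction s using Finset.induction_on with
    | empty => simp
    | insert a s ha ih => rw [Finset.sum_insert ha, Finset.sum_insert ha, CStarMatrix.add_apply, ih]
  rw [h1]
  refine Finset.sum_congr rfl fun a _ => ?_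
  rw [CStarMatrix.mul_apply]
  rfl

theorem flat_star (p : Matrix ι κ (CStarMatrix (Fin k) (Fin k) R)) : flat pᴴ = (flat p)ᴴ := rfl

theorem IsPr.flat {p : Matrix ι ι (CStarMatrix (Fin k) (Fin k) R)} (hp : IsPr p) :
    IsPr (flat p) :=
  ⟨by rw [← flat_mul, hp.1], by rw [← flat_star, hp.2]⟩

theorem mvn_flat {p : Matrix ι ι (CStarMatrix (Fin k) (Fin k) R)}
    {q : Matrix κ κ (CStarMatrix (Fin k) (Fin k) R)} : MvN (flat p) (flat q) ↔ MvN p q := by
  constructor
  · rintro ⟨v, h1, h2⟩
    refine ⟨unflat v, flat_inj ?_, flat_inj ?_⟩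
    · rw [flat_mul, flat_star, flat_unflat, h1]
    · rw [flat_mul, flat_star, flat_unflat, h2]
  · rintro ⟨v, h1, h2⟩
    exact ⟨flat v, by rw [← flat_star, ← flat_mul, h1], by rw [← flat_star, ← flat_mul, h2]⟩

/-- The map `V(M_k(R)) → V(R)`. -/
noncomputable def flatV : V (CStarMatrix (Fin k) (Fin k) R) → V R :=
  Quotient.lift (s := prSetoid _) (fun p => cls (flat p.mat) p.isPr.flat) (by
    intro p q h
    rw [cls_eq_iff]
    exact mvn_flat.2 h)

theorem flatV_cls {p : Matrix ι ι (CStarMatrix (Fin k) (Fin k) R)} (hp : IsPr p) :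
    flatV (cls p hp) = cls (flat p) hp.flat := by
  change cls (flat (p.submatrix (equivFin ι).symm (equivFin ι).symm)) (hp.submatrix _).flat = _
  rw [cls_eq_iff, mvn_flat]
  exact (MvN.submatrix hp _).symm

theorem flatV_add (x y : V (CStarMatrix (Fin k) (Fin k) R)) :
    flatV (x + y) = flatV x + flatV y := by
  obtain ⟨n, p, hp, rfl⟩ := x.exists_rep
  obtain ⟨m, q, hq, rfl⟩ := y.exists_rep
  rw [cls_add, flatV_cls, flatV_cls, flatV_cls, cls_add, cls_eq_iff]
  have h := MvN.submatrix (hp.flat.block hq.flat) (Equiv.sumProdDistrib (Fin n) (Fin m) (Fin k))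
  convert h.symm using 1
  ext x y
  rcases x with ⟨x | x, z⟩ <;> rcases y with ⟨y | y, w⟩ <;> simp [flat]

theorem flatV_zero : flatV (0 : V (CStarMatrix (Fin k) (Fin k) R)) = 0 := by
  rw [zero_def, flatV_cls, zero_def, cls_eq_iff]
  exact ⟨0, by ext x; exact x.1.elim0, by ext x; exact x.elim0⟩

/-- The map `K₀(M_k(R)) → K₀(R)`. -/
noncomputable def flatK : K0 (CStarMatrix (Fin k) (Fin k) R) →+ K0 R :=
  K0.lift
    { toFun := fun x => K0.of (flatV x)
      map_zero' := by rw [flatV_zero, map_zero]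
      map_add' := fun x y => by rw [flatV_add, map_add] }

theorem flatK_kc {p : Matrix ι ι (CStarMatrix (Fin k) (Fin k) R)} (hp : IsPr p) :
    flatK (kc p hp) = kc (flat p) hp.flat := by
  unfold flatK kc
  rw [K0.lift_of]
  change K0.of (flatV (cls p hp)) = _
  rw [flatV_cls]

end flat

section trace

variable {ι κ : Type*} [Fintype ι] [Fintype κ]

/-- The trace of a class of `V(ℂ)`. -/
noncomputable def trV : V ℂ → ℂ :=
  Quotient.lift (s := prSetoid _) (fun p => p.mat.trace) (by
    intro p q h
    exact MvN.trace_eq (p := p.mat) (q := q.mat) h)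

theorem trV_cls {p : Matrix ι ι ℂ} (hp : IsPr p) : trV (cls p hp) = p.trace := by
  classical
  change (p.submatrix (equivFin ι).symm (equivFin ι).symm).trace = _
  exact ((MvN.submatrix hp (equivFin ι).symm).trace_eq).symm

theorem trV_add (x y : V ℂ) : trV (x + y) = trV x + trV y := by
  obtain ⟨n, p, hp, rfl⟩ := x.exists_rep
  obtain ⟨m, q, hq, rfl⟩ := y.exists_rep
  rw [cls_add, trV_cls, trV_cls, trV_cls]
  simp [Matrix.trace, Fintype.sum_sum_type]

/-- The trace on `K₀(ℂ)`. -/
noncomputable def trK : K0 ℂ →+ ℂ :=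
  K0.lift
    { toFun := trV
      map_zero' := by rw [zero_def, trV_cls]; simp
      map_add' := trV_add }

theorem trK_kc {p : Matrix ι ι ℂ} (hp : IsPr p) : trK (kc p hp) = p.trace := by
  unfold trK kc
  rw [K0.lift_of]
  exact trV_cls hp

/-- The trace on `K₀(M_k(ℂ))`. -/
noncomputable def trM (k : ℕ) : K0 (CStarMatrix (Fin k) (Fin k) ℂ) →+ ℂ := trK.comp flatK

theorem trM_kc {k : ℕ} {p : Matrix ι ι (CStarMatrix (Fin k) (Fin k) ℂ)} (hp : IsPr p) :
    trM k (kc p hp) = (flat p).trace := by
  unfold trM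
  rw [AddMonoidHom.comp_apply, flatK_kc, trK_kc]

theorem trM_injective (k : ℕ) : Function.Injective (trM k) := by
  rw [injective_iff_map_eq_zero]
  intro x hx
  obtain ⟨n, p, hp, m, q, hq, rfl⟩ := x.exists_rep
  rw [map_sub, trM_kc, trM_kc, sub_eq_zero] at hx
  have h1 : MvN (flat p) (flat q) := mvn_of_trace_eq hp.flat hq.flat hx
  rw [sub_eq_zero]
  unfold kc
  rw [(cls_eq_iff hp hq).2 (mvn_flat.1 h1)]

theorem torFree_matrix (k : ℕ) : TorFree (K0 (CStarMatrix (Fin k) (Fin k) ℂ)) := by
  intro n x hn hx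
  apply trM_injective k
  rw [map_zero]
  have h1 := congrArg (trM k) hx
  rw [map_nsmul, map_zero, nsmul_eq_mul, mul_eq_zero] at h1
  rcases h1 with h | h
  · exact absurd (by exact_mod_cast h) hn
  · exact h

end trace

end Pool.Agent.KU
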