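import Pool.Agent.helper95.KU.Mat

/-! # Matrix algebras as probes: the Künneth map of `M_k(ℂ)` and `B` -/

set_option autoImplicit false

open Matrix Fintype Filter Topology
open scoped TensorProduct

namespace Pool.Agent.KU

universe u v w

section maps

theorem algMap_apply (R : Type*) [CStarAlgebra R] (k : ℕ) (c : ℂ) (a b : Fin k) :
    (algebraMap ℂ (CStarMatrix (Fin k) (Fin k) R) c) a b =
      if a = b then algebraMap ℂ R c else 0 := by
  rw [Algebra.algebraMap_eq_smul_one, CStarMatrix.smul_apply, CStarMatrix.one_apply,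
    Algebra.algebraMap_eq_smul_one]
  split_ifs <;> simp

variable (B : Type*) [CStarAlgebra B] (k : ℕ)

/-- The entrywise embedding `M_k(ℂ) → M_k(B)`. -/
noncomputable def iMat : CStarMatrix (Fin k) (Fin k) ℂ →⋆ₐ[ℂ] CStarMatrix (Fin k) (Fin k) B where
  toFun M := CStarMatrix.ofMatrix (Matrix.of fun a b => algebraMap ℂ B (M a b))
  map_one' := by
    ext a b
    change algebraMap ℂ B ((1 : CStarMatrix (Fin k) (Fin k) ℂ) a b) = _
    by_cases h : a = b
    · subst h; simp
    · simp [h]
  map_mul' M N := by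
    ext a b
    change algebraMap ℂ B ((M * N) a b) = _
    rw [CStarMatrix.mul_apply, CStarMatrix.mul_apply, map_sum]
    refine Finset.sum_congr rfl fun c _ => ?_
    rw [map_mul]
    rfl
  map_zero' := by
    ext a b
    change algebraMap ℂ B ((0 : CStarMatrix (Fin k) (Fin k) ℂ) a b) = _
    simp
  map_add' M N := by
    ext a b
    change algebraMap ℂ B ((M + N) a b) = _
    rw [CStarMatrix.add_apply, map_add]
    rfl
  commutes' c := by
    ext a b
    change algebraMap ℂ B ((algebraMap ℂ (CStarMatrix (Fin k) (Fin k) ℂ) c) a b) = _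
    rw [algMap_apply, algMap_apply]
    split_ifs <;> simp
  map_star' M := by
    ext a b
    change algebraMap ℂ B ((star M) a b) = star (algebraMap ℂ B (M b a))
    rw [CStarMatrix.star_apply, ← algebraMap_star_comm]

/-- The embedding `B → M_k(B)` as scalar matrices. -/
noncomputable def jMat : B →⋆ₐ[ℂ] CStarMatrix (Fin k) (Fin k) B where
  toFun y := CStarMatrix.ofMatrix (Matrix.of fun a b => if a = b then y else 0)
  map_one' := by
    ext a b
    change (if a = b then (1 : B) else 0) = _
    rw [CStarMatrix.one_apply]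
  map_mul' x y := by
    ext a b
    change (if a = b then x * y else 0) = _
    rw [CStarMatrix.mul_apply]
    change _ = ∑ c, (if a = c then x else 0) * (if c = b then y else 0)
    simp
  map_zero' := by
    ext a b
    change (if a = b then (0 : B) else 0) = _
    simp
  map_add' x y := by
    ext a b
    change (if a = b then x + y else 0) = (if a = b then x else 0) + (if a = b then y else 0)
    split_ifs <;> simp
  commutes' c := by
    ext a b
    change (if a = b then algebraMap ℂ B c else 0) = _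
    rw [Algebra.algebraMap_eq_smul_one, Algebra.algebraMap_eq_smul_one, CStarMatrix.smul_apply,
      CStarMatrix.one_apply]
    split_ifs <;> simp
  map_star' x := by
    ext a b
    change (if a = b then star x else 0) = star (if b = a then x else 0)
    by_cases h : a = b
    · subst h; simp
    · have h' : ¬ b = a := fun e => h e.symm
      simp [h, h']

theorem iMat_apply (M : CStarMatrix (Fin k) (Fin k) ℂ) (a b : Fin k) :
    iMat B k M a b = algebraMap ℂ B (M a b) := rfl

theorem jMat_apply (y : B) (a b : Fin k) : jMat B k y a b = if a = b then y else 0 := rfl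

theorem ij_mul_apply (M : CStarMatrix (Fin k) (Fin k) ℂ) (y : B) (a b : Fin k) :
    (iMat B k M * jMat B k y) a b = M a b • y := by
  rw [CStarMatrix.mul_apply]
  simp only [iMat_apply, jMat_apply, mul_ite, mul_zero, Finset.sum_ite_eq', Finset.mem_univ,
    if_true]
  rw [Algebra.smul_def]

theorem ji_mul_apply (M : CStarMatrix (Fin k) (Fin k) ℂ) (y : B) (a b : Fin k) :
    (jMat B k y * iMat B k M) a b = M a b • y := by
  rw [CStarMatrix.mul_apply]
  simp only [iMat_apply, jMat_apply, ite_mul, zero_mul, Finset.sum_ite_eq, Finset.mem_univ,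
    if_true]
  rw [Algebra.smul_def, Algebra.commutes]

theorem ij_comm (M : CStarMatrix (Fin k) (Fin k) ℂ) (y : B) :
    Commute (iMat B k M) (jMat B k y) := by
  change iMat B k M * jMat B k y = jMat B k y * iMat B k M
  ext a b
  rw [ij_mul_apply, ji_mul_apply]

end maps

section gen

/-- The matrix unit `E₀₀`, as a `1 × 1` matrix over `M_k(ℂ)`. -/
noncomputable def E00 (k : ℕ) : Matrix (Fin 1) (Fin 1) (CStarMatrix (Fin (k + 1)) (Fin (k + 1)) ℂ) :=
  unflat (Matrix.of fun x y => if x.2 = 0 ∧ y.2 = 0 then 1 else 0)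

theorem E00_apply (k : ℕ) (a b : Fin 1) (c d : Fin (k + 1)) :
    E00 k a b c d = if c = 0 ∧ d = 0 then 1 else 0 := rfl

theorem isPr_E00 (k : ℕ) : IsPr (E00 k) := by
  refine ⟨flat_inj ?_, flat_inj ?_⟩
  · rw [flat_mul]
    ext x y
    rw [Matrix.mul_apply, Fintype.sum_prod_type]
    change ∑ a : Fin 1, ∑ b : Fin (k + 1), E00 k x.1 a x.2 b * E00 k a y.1 b y.2 =
      E00 k x.1 y.1 x.2 y.2
    simp only [E00_apply]
    by_cases h1 : x.2 = 0 <;> by_cases h2 : y.2 = 0 <;> simp [h1, h2]
  · rw [flat_star]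
    ext x y
    rw [conjTranspose_apply]
    change star (E00 k y.1 x.1 y.2 x.2) = E00 k x.1 y.1 x.2 y.2
    simp only [E00_apply]
    by_cases h1 : x.2 = 0 <;> by_cases h2 : y.2 = 0 <;> simp [h1, h2]

theorem trM_E00 (k : ℕ) : trM (k + 1) (kc (E00 k) (isPr_E00 k)) = 1 := by
  rw [trM_kc]
  unfold Matrix.trace
  rw [Fintype.sum_prod_type]
  change ∑ a : Fin 1, ∑ b : Fin (k + 1), E00 k a a b b = 1
  simp [E00_apply]

/-- Every class of `K₀(M_k(ℂ))` has an integral trace. -/
theorem trM_int (k : ℕ) (x : K0 (CStarMatrix (Fin k) (Fin k) ℂ)) : ∃ N : ℤ, trM k x = N := by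
  obtain ⟨n, p, hp, m, q, hq, rfl⟩ := x.exists_rep
  obtain ⟨r, hr⟩ := proj_mvn_one hp.flat
  obtain ⟨s, hs⟩ := proj_mvn_one hq.flat
  have e1 := hr.trace_eq
  have e2 := hs.trace_eq
  rw [Matrix.trace_one, Fintype.card_fin] at e1 e2
  refine ⟨(r : ℤ) - s, ?_⟩
  rw [map_sub, trM_kc, trM_kc, e1, e2]
  push_cast
  rfl

theorem exists_zsmul_E00 (k : ℕ) (x : K0 (CStarMatrix (Fin (k + 1)) (Fin (k + 1)) ℂ)) :
    ∃ N : ℤ, x = N • kc (E00 k) (isPr_E00 k) := by
  obtain ⟨N, hN⟩ := trM_int (k + 1) x
  refine ⟨N, trM_injective (k + 1) ?_⟩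
  rw [map_zsmul, trM_E00, hN]
  simp

theorem K0_matrix_zero (x : K0 (CStarMatrix (Fin 0) (Fin 0) ℂ)) : x = 0 := by
  apply trM_injective 0
  obtain ⟨n, p, hp, m, q, hq, rfl⟩ := x.exists_rep
  rw [map_sub, trM_kc, trM_kc, map_zero]
  simp [Matrix.trace]

variable (B : Type*) [CStarAlgebra B]

theorem mvn_flat_kron (k : ℕ) {κ : Type*} [Fintype κ] {q : Matrix κ κ B} (hq : IsPr q) :
    MvN (flat (kron (iMat B (k + 1)) (jMat B (k + 1)) (E00 k) q)) q := by
  classical
  have hM : ∀ x y, flat (kron (iMat B (k + 1)) (jMat B (k + 1)) (E00 k) q) x y =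
      if x.2 = 0 ∧ y.2 = 0 then q x.1.2 y.1.2 else 0 := by
    intro x y
    change (iMat B (k + 1) (E00 k x.1.1 y.1.1) * jMat B (k + 1) (q x.1.2 y.1.2)) x.2 y.2 = _
    rw [ij_mul_apply, E00_apply]
    split_ifs <;> simp
  refine ⟨Matrix.of fun c y => if y.2 = 0 then q c y.1.2 else 0, ?_, ?_⟩
  · ext x y
    rw [hM, Matrix.mul_apply]
    simp only [conjTranspose_apply, Matrix.of_apply]
    by_cases h1 : x.2 = 0
    · by_cases h2 : y.2 = 0
      · simp only [h1, h2, if_true, and_self]
        have h3 := congrFun (congrFun hq.1 x.1.2) y.1.2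
        rw [Matrix.mul_apply] at h3
        rw [← h3]
        refine Finset.sum_congr rfl fun c _ => ?_
        have h4 := congrFun (congrFun hq.2 x.1.2) c
        rw [conjTranspose_apply] at h4
        rw [h4]
      · simp [h1, h2]
    · simp [h1]
  · ext c d
    rw [Matrix.mul_apply, Fintype.sum_prod_type, Fintype.sum_prod_type]
    simp only [conjTranspose_apply, Matrix.of_apply]
    have h3 := congrFun (congrFun hq.1 c) d
    rw [Matrix.mul_apply] at h3
    rw [← h3]
    simp only [Finset.univ_unique, Finset.sum_singleton]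
    refine Finset.sum_congr rfl fun z _ => ?_
    have h4 := congrFun (congrFun hq.2 z) d
    rw [conjTranspose_apply] at h4
    rw [← h4]
    simp

theorem alpha_matrix_injective (k : ℕ) :
    Function.Injective (alpha (iMat B k) (jMat B k) (ij_comm B k)) := by
  rw [injective_iff_map_eq_zero]
  intro z hz
  rcases Nat.eq_zero_or_pos k with hk | hk
  · subst hk
    induction z using TensorProduct.induction_on with
    | zero => rfl
    | tmul x y => rw [K0_matrix_zero x, TensorProduct.zero_tmul]
    | add z z' _ _ =>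
      have : ∀ w : K0 (CStarMatrix (Fin 0) (Fin 0) ℂ) ⊗[ℤ] K0 B, w = 0 := by
        intro w
        induction w using TensorProduct.induction_on with
        | zero => rfl
        | tmul x y => rw [K0_matrix_zero x, TensorProduct.zero_tmul]
        | add z z' h h' => rw [h, h', add_zero]
      exact this _
  · obtain ⟨k, rfl⟩ : ∃ l, k = l + 1 := ⟨k - 1, by omega⟩
    set e := kc (E00 k) (isPr_E00 k) with he
    have h1 : ∃ y : K0 B, z = e ⊗ₜ y := by
      clear hz
      induction z using TensorProduct.induction_on with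
      | zero => exact ⟨0, by rw [TensorProduct.tmul_zero]⟩
      | tmul x y =>
        obtain ⟨N, hN⟩ := exists_zsmul_E00 k x
        exact ⟨N • y, by rw [hN, TensorProduct.smul_tmul]⟩
      | add z z' h h' =>
        obtain ⟨y, hy⟩ := h
        obtain ⟨y', hy'⟩ := h'
        exact ⟨y + y', by rw [hy, hy', TensorProduct.tmul_add]⟩
    obtain ⟨y, rfl⟩ := h1
    rw [alpha_tmul] at hz
    have h2 : flatK (alpha₂ (iMat B (k + 1)) (jMat B (k + 1)) (ij_comm B (k + 1)) e y) = y := by
      obtain ⟨n, p, hp, m, q, hq, rfl⟩ := y.exists_rep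
      have h3 : ∀ {n : ℕ} {p : Matrix (Fin n) (Fin n) B} (hp : IsPr p),
          flatK (alpha₂ (iMat B (k + 1)) (jMat B (k + 1)) (ij_comm B (k + 1)) e (kc p hp)) =
            kc p hp := by
        intro n p hp
        rw [he, alpha₂_kc, flatK_kc]
        unfold kc
        rw [(cls_eq_iff _ hp).2 (mvn_flat_kron B k hp)]
      rw [map_sub, map_sub, h3, h3]
    rw [hz, map_zero] at h2
    rw [← h2, TensorProduct.tmul_zero]

end gen

end Pool.Agent.KU
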