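import Pool.Agent.helper95.KU.V

/-! # Perturbation of projections and of partial isometries in C*-algebras -/

set_option autoImplicit false

open Matrix Fintype

namespace Pool.Agent.KU

section cstar

variable {D : Type*} [CStarAlgebra D]

/-- A self-adjoint almost idempotent is close to a projection. -/
theorem exists_proj_near {x : D} (hx : IsSelfAdjoint x) {δ : ℝ} (hδ : δ < 1 / 4)
    (h : ‖x * x - x‖ ≤ δ) : ∃ e : D, e * e = e ∧ star e = e ∧ ‖e - x‖ ≤ 2 * δ := by
  have hδ0 : 0 ≤ δ := (norm_nonneg _).trans h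
  have hs : ∀ t ∈ spectrum ℝ x, |t * t - t| ≤ δ := by
    have h1 : x * x - x = cfc (fun t : ℝ => t * t - t) x := by
      rw [cfc_sub (fun t : ℝ => t * t) (fun t : ℝ => t) x,
        cfc_mul (fun t : ℝ => t) (fun t : ℝ => t) x, cfc_id' ℝ x]
    rw [h1] at h
    have := (norm_cfc_le_iff (fun t : ℝ => t * t - t) x hδ0).1 h
    simpa using this
  set f : ℝ → ℝ := fun t => if t < 1 / 2 then 0 else 1 with hf
  have hne : ∀ t ∈ spectrum ℝ x, t ≠ 1 / 2 := by
    intro t ht h0
    have := hs t ht
    rw [h0] at this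
    norm_num at this
    linarith
  have hcont : ContinuousOn f (spectrum ℝ x) := by
    intro t ht
    apply ContinuousAt.continuousWithinAt
    rcases lt_or_gt_of_ne (hne t ht) with hlt | hgt
    · have : f =ᶠ[nhds t] fun _ => 0 := by
        filter_upwards [eventually_lt_nhds hlt] with y hy
        simp only [hf]
        rw [if_pos hy]
      exact (continuousAt_const).congr this.symm
    · have : f =ᶠ[nhds t] fun _ => 1 := by
        filter_upwards [eventually_gt_nhds hgt] with y hy
        simp only [hf]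
        rw [if_neg (not_lt.2 (le_of_lt hy))]
      exact (continuousAt_const).congr this.symm
  refine ⟨cfc f x, ?_, ?_, ?_⟩
  · rw [← cfc_mul f f x]
    apply cfc_congr
    intro t _
    simp only [hf]
    split_ifs <;> simp
  · exact (cfc_predicate f x : IsSelfAdjoint (cfc f x))
  · have h2 : cfc f x - x = cfc (fun t : ℝ => f t - t) x := by
      rw [cfc_sub f (fun t : ℝ => t) x, cfc_id' ℝ x]
    rw [h2]
    apply norm_cfc_le (by positivity)
    intro t ht
    have h3 := hs t ht
    rw [Real.norm_eq_abs]
    simp only [hf]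
    split_ifs with h4
    · rw [zero_sub, abs_neg]
      have h5 : |t * t - t| = |t| * |1 - t| := by
        rw [← abs_mul, ← abs_neg]; congr 1; ring
      have h6 : 1 / 2 ≤ |1 - t| := by
        rw [abs_of_pos (by linarith)]; linarith
      nlinarith [abs_nonneg t]
    · have h4 := not_lt.1 h4
      have h5 : |t * t - t| = |t| * |1 - t| := by
        rw [← abs_mul, ← abs_neg]; congr 1; ring
      have h6 : 1 / 2 ≤ |t| := by
        rw [abs_of_pos (by linarith)]; linarith
      nlinarith [abs_nonneg (1 - t)]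

theorem norm_proj_le_one {e : D} (he : e * e = e) (hs : star e = e) : ‖e‖ ≤ 1 := by
  have h1 : ‖star e * e‖ = ‖e‖ * ‖e‖ := CStarRing.norm_star_mul_self
  rw [hs, he] at h1
  rcases eq_or_ne ‖e‖ 0 with h0 | h0
  · rw [h0]; norm_num
  · have : ‖e‖ = 1 := by
      have h2 : ‖e‖ * 1 = ‖e‖ * ‖e‖ := by rw [mul_one]; exact h1
      exact (mul_left_cancel₀ h0 h2).symm
    exact this.le

/-- An almost partial isometry between two projections gives a partial isometry. -/
theorem exists_pi_near {e f a : D} (he : e * e = e) (hes : star e = e) (hf : f * f = f)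
    (hfs : star f = f) (hae : a * e = a) (hfa : f * a = a) (h1 : ‖star a * a - e‖ ≤ 1 / 2)
    (h2 : ‖a * star a - f‖ ≤ 1 / 2) : ∃ v : D, star v * v = e ∧ v * star v = f := by
  set h : D := star a * a + (1 - e) with hh
  have hsa : IsSelfAdjoint h := by
    rw [hh]
    apply IsSelfAdjoint.add (IsSelfAdjoint.star_mul_self a)
    exact (IsSelfAdjoint.one D).sub hes
  have hh1 : h - 1 = star a * a - e := by rw [hh]; abel
  have hs : ∀ t ∈ spectrum ℝ h, |t - 1| ≤ 1 / 2 := by
    have h3 : h - 1 = cfc (fun t : ℝ => t - 1) h := by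
      rw [cfc_sub (fun t : ℝ => t) (fun _ : ℝ => 1) h, cfc_id' ℝ h, cfc_const_one ℝ h]
    have h4 : ‖cfc (fun t : ℝ => t - 1) h‖ ≤ 1 / 2 := by rw [← h3, hh1]; exact h1
    have := (norm_cfc_le_iff (fun t : ℝ => t - 1) h (by norm_num)).1 h4
    simpa using this
  have hpos : ∀ t ∈ spectrum ℝ h, 0 < t := by
    intro t ht
    have := abs_le.1 (hs t ht)
    linarith
  set r : D := cfc (fun t : ℝ => (Real.sqrt t)⁻¹) h with hr
  have hcont : ContinuousOn (fun t : ℝ => (Real.sqrt t)⁻¹) (spectrum ℝ h) := by
    apply ContinuousOn.inv₀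
    · exact Real.continuous_sqrt.continuousOn
    · intro t ht
      exact (Real.sqrt_pos.2 (hpos t ht)).ne'
  have hrs : star r = r := (cfc_predicate _ h : IsSelfAdjoint (cfc _ h))
  have hrh : Commute r h := by
    have := (Commute.refl h).cfc_real (fun t : ℝ => (Real.sqrt t)⁻¹)
    exact this
  have hrr : r * r * h = 1 := by
    have e1 : r * r = cfc (fun t : ℝ => (Real.sqrt t)⁻¹ * (Real.sqrt t)⁻¹) h := by
      rw [hr, ← cfc_mul _ _ h hcont hcont]
    have e2 : cfc (fun t : ℝ => (Real.sqrt t)⁻¹ * (Real.sqrt t)⁻¹ * t) h =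
        cfc (fun t : ℝ => (Real.sqrt t)⁻¹ * (Real.sqrt t)⁻¹) h * cfc (fun t : ℝ => t) h :=
      cfc_mul (fun t : ℝ => (Real.sqrt t)⁻¹ * (Real.sqrt t)⁻¹) (fun t : ℝ => t) h
        (hcont.mul hcont) (continuous_id.continuousOn)
    rw [cfc_id' ℝ h] at e2
    rw [e1, ← e2, ← cfc_const_one ℝ h]
    apply cfc_congr
    intro t ht
    have := hpos t ht
    have h5 : Real.sqrt t ≠ 0 := (Real.sqrt_pos.2 this).ne'
    simp only
    have h6 : Real.sqrt t * Real.sqrt t = t := Real.mul_self_sqrt this.le
    calc (Real.sqrt t)⁻¹ * (Real.sqrt t)⁻¹ * t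
        = (Real.sqrt t)⁻¹ * (Real.sqrt t)⁻¹ * (Real.sqrt t * Real.sqrt t) := by rw [h6]
      _ = 1 := by field_simp
  have hes' : star a * a * e = star a * a := by rw [mul_assoc, hae]
  have hea : e * star a = star a := by
    have := congrArg star hae
    rwa [star_mul, hes] at this
  have hhe : h * (1 - e) = 1 - e := by
    rw [hh]
    calc (star a * a + (1 - e)) * (1 - e)
        = star a * a - star a * a * e + (1 - e - e + e * e) := by noncomm_ring
      _ = 1 - e := by rw [hes', he]; abel
  have hce : Commute h e := by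
    change h * e = e * h
    rw [hh]
    calc (star a * a + (1 - e)) * e = star a * a * e + (e - e * e) := by noncomm_ring
      _ = star a * a + (e - e * e) := by rw [hes']
      _ = (e * star a) * a + (e - e * e) := by rw [hea]
      _ = e * (star a * a + (1 - e)) := by noncomm_ring
  have hre : Commute r e := hce.cfc_real _
  have hr1e : r * (1 - e) * r = 1 - e := by
    have h7 : Commute r (1 - e) := (Commute.one_right r).sub_right hre
    calc r * (1 - e) * r = r * ((1 - e) * r) := by rw [mul_assoc]
      _ = r * (r * (1 - e)) := by rw [h7.eq]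
      _ = r * r * (1 - e) := by rw [mul_assoc]
      _ = r * r * (h * (1 - e)) := by rw [hhe]
      _ = (r * r * h) * (1 - e) := by rw [mul_assoc (r * r)]
      _ = 1 - e := by rw [hrr, one_mul]
  have hrhr : r * h * r = 1 := by
    rw [mul_assoc, ← hrh.eq, ← mul_assoc, hrr]
  have haa : star a * a = h - (1 - e) := by rw [hh]; abel
  refine ⟨a * r, ?_, ?_⟩
  · rw [star_mul, hrs]
    calc r * star a * (a * r) = r * (star a * a) * r := by noncomm_ring
      _ = r * h * r - r * (1 - e) * r := by rw [haa]; noncomm_ring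
      _ = e := by rw [hrhr, hr1e]; abel
  · rw [star_mul, hrs]
    set g : D := a * r * (r * star a) with hg
    have hgf : g * f = g := by
      have : star a * f = star a := by
        have := congrArg star hfa
        rwa [star_mul, hfs] at this
      rw [hg, mul_assoc, mul_assoc r, this]
    have hrre : Commute (r * r) (1 - e) := by
      have h7 : Commute r (1 - e) := (Commute.one_right r).sub_right hre
      exact h7.mul_left h7
    have ha1e : a * (1 - e) = 0 := by rw [mul_sub, mul_one, hae, sub_self]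
    have hga : g * a = a := by
      rw [hg]
      calc a * r * (r * star a) * a = a * (r * r) * (star a * a) := by noncomm_ring
        _ = a * (r * r * h) - a * (r * r * (1 - e)) := by rw [haa]; noncomm_ring
        _ = a - a * ((1 - e) * (r * r)) := by rw [hrr, mul_one, hrre.eq]
        _ = a - (a * (1 - e)) * (r * r) := by rw [mul_assoc]
        _ = a := by rw [ha1e, zero_mul, sub_zero]
    have hkey : (f - g) * (f - a * star a) = f - g := by
      calc (f - g) * (f - a * star a)
          = f * f - g * f - ((f * a) * star a - (g * a) * star a) := by noncomm_ring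
        _ = f - g := by rw [hf, hgf, hfa, hga]; abel
    have hnorm : ‖f - g‖ ≤ ‖f - g‖ * (1 / 2) := by
      calc ‖f - g‖ = ‖(f - g) * (f - a * star a)‖ := by rw [hkey]
        _ ≤ ‖f - g‖ * ‖f - a * star a‖ := norm_mul_le _ _
        _ ≤ ‖f - g‖ * (1 / 2) := by
          apply mul_le_mul_of_nonneg_left _ (norm_nonneg _)
          rw [norm_sub_rev]; exact h2
    have h0 : ‖f - g‖ = 0 := by
      have := norm_nonneg (f - g)
      linarith
    have := norm_eq_zero.1 h0
    exact (sub_eq_zero.1 this).symm

/-- An element which is almost a partial isometry from `e` to `f`. -/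
theorem exists_pi_near' {e f w : D} (he : e * e = e) (hes : star e = e) (hf : f * f = f)
    (hfs : star f = f) (h1 : ‖star w * w - e‖ ≤ 1 / 10)
    (h2 : ‖w * star w - f‖ ≤ 1 / 10) : ∃ v : D, star v * v = e ∧ v * star v = f := by
  have hne := norm_proj_le_one he hes
  have hnf := norm_proj_le_one hf hfs
  have hsw : ‖star w * w‖ ≤ 11 / 10 := by
    calc ‖star w * w‖ = ‖(star w * w - e) + e‖ := by rw [sub_add_cancel]
      _ ≤ ‖star w * w - e‖ + ‖e‖ := norm_add_le _ _
      _ ≤ 11 / 10 := by linarith
  have hws : ‖w * star w‖ ≤ 11 / 10 := by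
    calc ‖w * star w‖ = ‖(w * star w - f) + f‖ := by rw [sub_add_cancel]
      _ ≤ ‖w * star w - f‖ + ‖f‖ := norm_add_le _ _
      _ ≤ 11 / 10 := by linarith
  have hw2 : ‖w‖ * ‖w‖ ≤ 11 / 10 := by rw [← CStarRing.norm_star_mul_self]; exact hsw
  have hstar : ‖star w‖ = ‖w‖ := norm_star w
  -- star w * f * w is close to e
  have k1 : ‖star w * f * w - e‖ ≤ 1 / 2 := by
    have : star w * f * w - e = -(star w * (w * star w - f) * w) +
        (star w * w * (star w * w - e) + (star w * w - e) * e) := by
      calc star w * f * w - e = star w * f * w - e * e := by rw [he]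
        _ = _ := by noncomm_ring
    rw [this]
    have b1 : ‖star w * (w * star w - f) * w‖ ≤ 11 / 100 := by
      calc ‖star w * (w * star w - f) * w‖ ≤ ‖star w * (w * star w - f)‖ * ‖w‖ := norm_mul_le _ _
        _ ≤ (‖star w‖ * ‖w * star w - f‖) * ‖w‖ := by
            gcongr; exact norm_mul_le _ _
        _ = (‖w‖ * ‖w‖) * ‖w * star w - f‖ := by rw [hstar]; ring
        _ ≤ 11 / 10 * (1 / 10) := mul_le_mul hw2 h2 (norm_nonneg _) (by norm_num)
        _ = 11 / 100 := by norm_num
    have b2 : ‖star w * w * (star w * w - e)‖ ≤ 11 / 100 := by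
      calc ‖star w * w * (star w * w - e)‖ ≤ ‖star w * w‖ * ‖star w * w - e‖ := norm_mul_le _ _
        _ ≤ 11 / 10 * (1 / 10) := mul_le_mul hsw h1 (norm_nonneg _) (by norm_num)
        _ = 11 / 100 := by norm_num
    have b3 : ‖(star w * w - e) * e‖ ≤ 1 / 10 := by
      calc ‖(star w * w - e) * e‖ ≤ ‖star w * w - e‖ * ‖e‖ := norm_mul_le _ _
        _ ≤ 1 / 10 * 1 := mul_le_mul h1 hne (norm_nonneg _) (by norm_num)
        _ = 1 / 10 := by norm_num
    calc _ ≤ ‖-(star w * (w * star w - f) * w)‖ + ‖star w * w * (star w * w - e) +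
          (star w * w - e) * e‖ := norm_add_le _ _
      _ ≤ ‖star w * (w * star w - f) * w‖ + (‖star w * w * (star w * w - e)‖ +
          ‖(star w * w - e) * e‖) := by rw [norm_neg]; gcongr; exact norm_add_le _ _
      _ ≤ 1 / 2 := by linarith
  have k2 : ‖w * e * star w - f‖ ≤ 1 / 2 := by
    have : w * e * star w - f = -(w * (star w * w - e) * star w) +
        (w * star w * (w * star w - f) + (w * star w - f) * f) := by
      calc w * e * star w - f = w * e * star w - f * f := by rw [hf]
        _ = _ := by noncomm_ring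
    rw [this]
    have b1 : ‖w * (star w * w - e) * star w‖ ≤ 11 / 100 := by
      calc ‖w * (star w * w - e) * star w‖ ≤ ‖w * (star w * w - e)‖ * ‖star w‖ := norm_mul_le _ _
        _ ≤ (‖w‖ * ‖star w * w - e‖) * ‖star w‖ := by
            gcongr; exact norm_mul_le _ _
        _ = (‖w‖ * ‖w‖) * ‖star w * w - e‖ := by rw [hstar]; ring
        _ ≤ 11 / 10 * (1 / 10) := mul_le_mul hw2 h1 (norm_nonneg _) (by norm_num)
        _ = 11 / 100 := by norm_num
    have b2 : ‖w * star w * (w * star w - f)‖ ≤ 11 / 100 := by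
      calc ‖w * star w * (w * star w - f)‖ ≤ ‖w * star w‖ * ‖w * star w - f‖ := norm_mul_le _ _
        _ ≤ 11 / 10 * (1 / 10) := mul_le_mul hws h2 (norm_nonneg _) (by norm_num)
        _ = 11 / 100 := by norm_num
    have b3 : ‖(w * star w - f) * f‖ ≤ 1 / 10 := by
      calc ‖(w * star w - f) * f‖ ≤ ‖w * star w - f‖ * ‖f‖ := norm_mul_le _ _
        _ ≤ 1 / 10 * 1 := mul_le_mul h2 hnf (norm_nonneg _) (by norm_num)
        _ = 1 / 10 := by norm_num
    calc _ ≤ ‖-(w * (star w * w - e) * star w)‖ + ‖w * star w * (w * star w - f) +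
          (w * star w - f) * f‖ := norm_add_le _ _
      _ ≤ ‖w * (star w * w - e) * star w‖ + (‖w * star w * (w * star w - f)‖ +
          ‖(w * star w - f) * f‖) := by rw [norm_neg]; gcongr; exact norm_add_le _ _
      _ ≤ 1 / 2 := by linarith
  apply exists_pi_near (a := f * w * e) he hes hf hfs
  · rw [mul_assoc (f * w), he]
  · rw [mul_assoc f w, ← mul_assoc f f, hf, ← mul_assoc]
  · have : star (f * w * e) * (f * w * e) - e = e * (star w * f * w - e) * e := by
      rw [star_mul, star_mul, hes, hfs]
      calc e * (star w * f) * (f * w * e) - e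
          = e * (star w * (f * f) * w) * e - e * e * e := by rw [he, he]; noncomm_ring
        _ = e * (star w * f * w - e) * e := by rw [hf]; noncomm_ring
    rw [this]
    calc ‖e * (star w * f * w - e) * e‖ ≤ ‖e * (star w * f * w - e)‖ * ‖e‖ := norm_mul_le _ _
      _ ≤ (‖e‖ * ‖star w * f * w - e‖) * ‖e‖ := by gcongr; exact norm_mul_le _ _
      _ ≤ (1 * (1 / 2)) * 1 := by gcongr
      _ = 1 / 2 := by norm_num
  · have : (f * w * e) * star (f * w * e) - f = f * (w * e * star w - f) * f := by
      rw [star_mul, star_mul, hes, hfs]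
      calc f * w * e * (e * (star w * f)) - f
          = f * (w * (e * e) * star w) * f - f * f * f := by rw [hf, hf]; noncomm_ring
        _ = f * (w * e * star w - f) * f := by rw [he]; noncomm_ring
    rw [this]
    calc ‖f * (w * e * star w - f) * f‖ ≤ ‖f * (w * e * star w - f)‖ * ‖f‖ := norm_mul_le _ _
      _ ≤ (‖f‖ * ‖w * e * star w - f‖) * ‖f‖ := by gcongr; exact norm_mul_le _ _
      _ ≤ (1 * (1 / 2)) * 1 := by gcongr
      _ = 1 / 2 := by norm_num

end cstar

end Pool.Agent.KU
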