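import Pool.Agent.helper95.KU.V

/-! # The external product `α : K₀(A) ⊗ K₀(B) → K₀(C)` -/

set_option autoImplicit false

open Matrix Fintype
open scoped TensorProduct

namespace Pool.Agent.KU

section prod

variable {A B C : Type*} [CStarAlgebra A] [CStarAlgebra B] [CStarAlgebra C]
variable {ι κ μ ν ι' κ' : Type*} [Fintype ι] [Fintype κ] [Fintype μ] [Fintype ν] [Fintype ι']
  [Fintype κ']

/-- The tensor product of two matrices, with values in an algebra `C` to which `A` and `B` are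
mapped: the entry at `((a, c), (b, d))` is `i (p a b) * j (q c d)`. -/
def kron (i : A →⋆ₐ[ℂ] C) (j : B →⋆ₐ[ℂ] C) {ι κ ι' κ' : Type*} (p : Matrix ι ι' A)
    (q : Matrix κ κ' B) : Matrix (ι × κ) (ι' × κ') C :=
  Matrix.of fun x y => i (p x.1 y.1) * j (q x.2 y.2)

theorem kron_apply (i : A →⋆ₐ[ℂ] C) (j : B →⋆ₐ[ℂ] C) {ι κ ι' κ' : Type*} (p : Matrix ι ι' A)
    (q : Matrix κ κ' B) (x : ι × κ) (y : ι' × κ') :
    kron i j p q x y = i (p x.1 y.1) * j (q x.2 y.2) := rfl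

theorem kron_mul {i : A →⋆ₐ[ℂ] C} {j : B →⋆ₐ[ℂ] C} (hc : ∀ a b, Commute (i a) (j b))
    (p : Matrix μ ι A) (q : Matrix ν κ B) (p' : Matrix ι ι' A) (q' : Matrix κ κ' B) :
    kron i j p q * kron i j p' q' = kron i j (p * p') (q * q') := by
  ext x y
  rw [Matrix.mul_apply, kron_apply, Matrix.mul_apply, Matrix.mul_apply, map_sum, map_sum,
    Fintype.sum_prod_type, Finset.sum_mul_sum]
  refine Finset.sum_congr rfl fun a _ => Finset.sum_congr rfl fun c _ => ?_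
  rw [kron_apply, kron_apply, map_mul, map_mul]
  have := (hc (p' a y.1) (q x.2 c)).eq
  calc i (p x.1 a) * j (q x.2 c) * (i (p' a y.1) * j (q' c y.2))
      = i (p x.1 a) * (j (q x.2 c) * i (p' a y.1)) * j (q' c y.2) := by noncomm_ring
    _ = i (p x.1 a) * (i (p' a y.1) * j (q x.2 c)) * j (q' c y.2) := by rw [this]
    _ = _ := by noncomm_ring

theorem kron_star {i : A →⋆ₐ[ℂ] C} {j : B →⋆ₐ[ℂ] C} (hc : ∀ a b, Commute (i a) (j b))
    (p : Matrix ι ι' A) (q : Matrix κ κ' B) : (kron i j p q)ᴴ = kron i j pᴴ qᴴ := by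
  ext x y
  rw [conjTranspose_apply, kron_apply, kron_apply, star_mul, conjTranspose_apply,
    conjTranspose_apply, map_star, map_star]
  rw [← map_star, ← map_star]
  exact (hc _ _).eq.symm

theorem IsPr.kron {i : A →⋆ₐ[ℂ] C} {j : B →⋆ₐ[ℂ] C} (hc : ∀ a b, Commute (i a) (j b))
    {p : Matrix ι ι A} {q : Matrix κ κ B} (hp : IsPr p) (hq : IsPr q) :
    IsPr (kron i j p q) := by
  refine ⟨?_, ?_⟩
  · rw [kron_mul hc, hp.1, hq.1]
  · rw [kron_star hc, hp.2, hq.2]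

theorem MvN.kron {i : A →⋆ₐ[ℂ] C} {j : B →⋆ₐ[ℂ] C} (hc : ∀ a b, Commute (i a) (j b))
    {p : Matrix ι ι A} {q : Matrix κ κ B} {p' : Matrix ι' ι' A} {q' : Matrix κ' κ' B}
    (h : MvN p p') (h' : MvN q q') : MvN (kron i j p q) (kron i j p' q') := by
  obtain ⟨v, h1, h2⟩ := h
  obtain ⟨w, h3, h4⟩ := h'
  refine ⟨Pool.Agent.KU.kron i j v w, ?_, ?_⟩
  · rw [kron_star hc, kron_mul hc, h1, h3]
  · rw [kron_star hc, kron_mul hc, h2, h4]

/-- The product `V(A) × V(B) → V(C)`. -/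
noncomputable def prodV (i : A →⋆ₐ[ℂ] C) (j : B →⋆ₐ[ℂ] C) (hc : ∀ a b, Commute (i a) (j b)) :
    V A → V B → V C :=
  Quotient.lift₂ (s₁ := prSetoid A) (s₂ := prSetoid B)
    (fun p q => cls (kron i j p.mat q.mat) (p.isPr.kron hc q.isPr)) (by
      intro p q p' q' h h'
      rw [cls_eq_iff]
      exact MvN.kron hc h h')

theorem prodV_cls {i : A →⋆ₐ[ℂ] C} {j : B →⋆ₐ[ℂ] C} (hc : ∀ a b, Commute (i a) (j b))
    {p : Matrix ι ι A} {q : Matrix κ κ B} (hp : IsPr p) (hq : IsPr q) :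
    prodV i j hc (cls p hp) (cls q hq) = cls (kron i j p q) (hp.kron hc hq) := by
  change cls (kron i j (p.submatrix (equivFin ι).symm (equivFin ι).symm)
    (q.submatrix (equivFin κ).symm (equivFin κ).symm))
    ((hp.submatrix _).kron hc (hq.submatrix _)) = _
  rw [cls_eq_iff]
  exact MvN.kron hc (MvN.submatrix hp _).symm (MvN.submatrix hq _).symm

theorem prodV_add_left {i : A →⋆ₐ[ℂ] C} {j : B →⋆ₐ[ℂ] C} (hc : ∀ a b, Commute (i a) (j b))
    (x x' : V A) (y : V B) :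
    prodV i j hc (x + x') y = prodV i j hc x y + prodV i j hc x' y := by
  obtain ⟨n, p, hp, rfl⟩ := x.exists_rep
  obtain ⟨m, p', hp', rfl⟩ := x'.exists_rep
  obtain ⟨l, q, hq, rfl⟩ := y.exists_rep
  rw [cls_add, prodV_cls, prodV_cls, prodV_cls, cls_add, cls_eq_iff]
  have h := MvN.submatrix ((hp.kron hc hq).block (hp'.kron hc hq))
    (Equiv.sumProdDistrib (Fin n) (Fin m) (Fin l))
  convert h.symm using 1
  ext x y
  rcases x with ⟨x | x, z⟩ <;> rcases y with ⟨y | y, w⟩ <;> simp [kron]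

theorem prodV_add_right {i : A →⋆ₐ[ℂ] C} {j : B →⋆ₐ[ℂ] C} (hc : ∀ a b, Commute (i a) (j b))
    (x : V A) (y y' : V B) :
    prodV i j hc x (y + y') = prodV i j hc x y + prodV i j hc x y' := by
  obtain ⟨n, p, hp, rfl⟩ := x.exists_rep
  obtain ⟨m, q, hq, rfl⟩ := y.exists_rep
  obtain ⟨l, q', hq', rfl⟩ := y'.exists_rep
  rw [cls_add, prodV_cls, prodV_cls, prodV_cls, cls_add, cls_eq_iff]
  have h := MvN.submatrix ((hp.kron hc hq).block (hp.kron hc hq'))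
    (Equiv.prodSumDistrib (Fin n) (Fin m) (Fin l))
  convert h.symm using 1
  ext x y
  rcases x with ⟨z, x | x⟩ <;> rcases y with ⟨w, y | y⟩ <;> simp [kron]

theorem prodV_zero_left {i : A →⋆ₐ[ℂ] C} {j : B →⋆ₐ[ℂ] C} (hc : ∀ a b, Commute (i a) (j b))
    (y : V B) : prodV i j hc 0 y = 0 := by
  obtain ⟨l, q, hq, rfl⟩ := y.exists_rep
  rw [zero_def, prodV_cls, zero_def, cls_eq_iff]
  refine ⟨0, ?_, ?_⟩
  · ext x y; exact x.1.elim0
  · ext x y; exact x.elim0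

theorem prodV_zero_right {i : A →⋆ₐ[ℂ] C} {j : B →⋆ₐ[ℂ] C} (hc : ∀ a b, Commute (i a) (j b))
    (x : V A) : prodV i j hc x 0 = 0 := by
  obtain ⟨l, q, hq, rfl⟩ := x.exists_rep
  rw [zero_def, prodV_cls, zero_def, cls_eq_iff]
  refine ⟨0, ?_, ?_⟩
  · ext x y; exact x.2.elim0
  · ext x y; exact x.elim0

/-- The product `V(A) × V(B) → V(C)` as a biadditive map. -/
noncomputable def prodH (i : A →⋆ₐ[ℂ] C) (j : B →⋆ₐ[ℂ] C) (hc : ∀ a b, Commute (i a) (j b)) :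
    V A →+ V B →+ V C where
  toFun x :=
    { toFun := fun y => prodV i j hc x y
      map_zero' := prodV_zero_right hc x
      map_add' := prodV_add_right hc x }
  map_zero' := by ext y; exact prodV_zero_left hc y
  map_add' x x' := by ext y; exact prodV_add_left hc x x' y

/-- The external product on `K₀`, as a biadditive map. -/
noncomputable def alpha₂ (i : A →⋆ₐ[ℂ] C) (j : B →⋆ₐ[ℂ] C) (hc : ∀ a b, Commute (i a) (j b)) :
    K0 A →+ K0 B →+ K0 C :=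
  grBi (prodH i j hc)

theorem alpha₂_of (i : A →⋆ₐ[ℂ] C) (j : B →⋆ₐ[ℂ] C) (hc : ∀ a b, Commute (i a) (j b))
    (x : V A) (y : V B) :
    alpha₂ i j hc (K0.of x) (K0.of y) = K0.of (prodV i j hc x y) :=
  grBi_of (prodH i j hc) x y

/-- The Künneth map `α : K₀(A) ⊗ K₀(B) → K₀(C)`, `[p] ⊗ [q] ↦ [p ⊗ q]`. -/
noncomputable def alpha (i : A →⋆ₐ[ℂ] C) (j : B →⋆ₐ[ℂ] C) (hc : ∀ a b, Commute (i a) (j b)) :
    K0 A ⊗[ℤ] K0 B →+ K0 C :=
  tensLift (alpha₂ i j hc)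

theorem alpha_tmul (i : A →⋆ₐ[ℂ] C) (j : B →⋆ₐ[ℂ] C) (hc : ∀ a b, Commute (i a) (j b))
    (x : K0 A) (y : K0 B) : alpha i j hc (x ⊗ₜ y) = alpha₂ i j hc x y := by
  rfl

theorem alpha₂_kc (i : A →⋆ₐ[ℂ] C) (j : B →⋆ₐ[ℂ] C) (hc : ∀ a b, Commute (i a) (j b))
    {p : Matrix ι ι A} {q : Matrix κ κ B} (hp : IsPr p) (hq : IsPr q) :
    alpha₂ i j hc (kc p hp) (kc q hq) = kc (kron i j p q) (hp.kron hc hq) := by
  unfold kc
  rw [alpha₂_of, prodV_cls]

end prod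

end Pool.Agent.KU
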