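import Pool.Agent.helper95.KU.Cor

/-! # The Künneth map with the factors exchanged, and representations of tensors -/

set_option autoImplicit false

open Matrix Fintype Filter Topology
open scoped TensorProduct

namespace Pool.Agent.KU

universe u v w

section rep

/-- If the right hand group is torsion free, every tensor is a sum of `x k ⊗ y k` with independent
`x k` and independent `y k`, and of `t k ⊗ w k` with `t k` of finite order. -/
theorem exists_bi_indep_rep {G M : Type*} [AddCommGroup G] [AddCommGroup M] (hM : TorFree M)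
    (z : G ⊗[ℤ] M) : ∃ (s r : ℕ) (x : Fin s → G) (y : Fin s → M) (t : Fin r → G) (w : Fin r → M),
      LinearIndependent ℤ x ∧ LinearIndependent ℤ y ∧ (∀ k, ∃ N : ℕ, N ≠ 0 ∧ N • t k = 0) ∧
      z = ∑ k, x k ⊗ₜ[ℤ] y k + ∑ k, t k ⊗ₜ[ℤ] w k := by
  obtain ⟨r, x, y, hy, rfl⟩ := exists_indep_rep hM z
  set T := Submodule.torsion ℤ G with hT
  set π := T.mkQ with hπ
  set X : Submodule ℤ (G ⧸ T) := Submodule.span ℤ (Set.range fun k => π (x k)) with hX
  have : Module.Finite ℤ X := Module.Finite.span_of_finite ℤ (Set.finite_range _)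
  have hQ : Module.IsTorsionFree ℤ (G ⧸ T) := inferInstance
  have : Module.Free ℤ X := inferInstance
  set β := Module.finBasis ℤ X with hβ
  have hx : ∀ k, π (x k) ∈ X := fun k => Submodule.subset_span ⟨k, rfl⟩
  choose e he using fun l => T.mkQ_surjective ((β l : X) : G ⧸ T)
  set a : Fin r → Fin (Module.finrank ℤ X) → ℤ := fun k l => β.repr ⟨π (x k), hx k⟩ l with ha
  have hπx : ∀ k, π (x k) = ∑ l, a k l • (β l : G ⧸ T) := by
    intro k
    have h1 := congrArg X.subtype (β.sum_repr ⟨π (x k), hx k⟩)
    rw [map_sum] at h1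
    simp only [map_smul, Submodule.subtype_apply] at h1
    exact h1.symm
  set t : Fin r → G := fun k => x k - ∑ l, a k l • e l with ht
  have htT : ∀ k, t k ∈ T := by
    intro k
    rw [← Submodule.ker_mkQ T, LinearMap.mem_ker, ht, map_sub, map_sum]
    simp only [map_smul, he]
    exact sub_eq_zero.2 (hπx k)
  refine ⟨_, r, e, fun l => ∑ k, a k l • y k, t, y, ?_, ?_, ?_, ?_⟩
  · apply LinearIndependent.of_comp π
    have h1 : (π ∘ e) = fun l => ((β l : X) : G ⧸ T) := funext he
    rw [h1]
    exact β.linearIndependent.map' X.subtype (Submodule.ker_subtype X)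
  · rw [Fintype.linearIndependent_iff]
    intro c hc
    have h1 : ∀ k, ∑ l, a k l * c l = 0 := by
      have h2 : ∑ k, (∑ l, a k l * c l) • y k = 0 := by
        rw [← hc]
        simp only [Finset.sum_smul, Finset.smul_sum, smul_smul]
        rw [Finset.sum_comm]
        exact Finset.sum_congr rfl fun l _ => Finset.sum_congr rfl fun k _ => by
          rw [mul_comm]
      exact Fintype.linearIndependent_iff.1 hy _ h2
    -- the functional `∑ c l * (coordinate l)` vanishes on `X`
    set f : X →ₗ[ℤ] ℤ := ∑ l, c l • β.coord l with hf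
    have h3 : ∀ k, f ⟨π (x k), hx k⟩ = 0 := by
      intro k
      rw [← h1 k, hf, LinearMap.sum_apply]
      exact Finset.sum_congr rfl fun l _ => by
        rw [LinearMap.smul_apply, smul_eq_mul, mul_comm]; rfl
    have h4 : f = 0 := by
      have h5 : ∀ v (hv : v ∈ X), f ⟨v, hv⟩ = 0 := by
        intro v hv
        induction hv using Submodule.span_induction with
        | mem v hv =>
          obtain ⟨k, rfl⟩ := hv
          exact h3 k
        | zero => exact map_zero f
        | add v v' hv hv' h h' =>
          have : (⟨v + v', X.add_mem hv hv'⟩ : X) = ⟨v, hv⟩ + ⟨v', hv'⟩ := rfl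
          rw [this, map_add, h, h', add_zero]
        | smul n v hv h =>
          have : (⟨n • v, X.smul_mem n hv⟩ : X) = n • ⟨v, hv⟩ := rfl
          rw [this, map_smul, h, smul_zero]
      ext v
      exact h5 v.1 v.2
    intro l
    have h6 : f (β l) = c l := by
      rw [hf, LinearMap.sum_apply, Finset.sum_eq_single l]
      · rw [LinearMap.smul_apply, Module.Basis.coord_apply, Module.Basis.repr_self,
          Finsupp.single_eq_same, smul_eq_mul, mul_one]
      · intro l' _ hl'
        rw [LinearMap.smul_apply, Module.Basis.coord_apply, Module.Basis.repr_self,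
          Finsupp.single_eq_of_ne hl', smul_zero]
      · intro h; exact absurd (Finset.mem_univ l) h
    rw [← h6, h4, LinearMap.zero_apply]
  · intro k
    obtain ⟨n, hn⟩ := (Submodule.mem_torsion_iff (R := ℤ) (M := G) (t k)).1 (htT k)
    refine ⟨(n : ℤ).natAbs, Int.natAbs_ne_zero.2 (nonZeroDivisors.ne_zero n.2), ?_⟩
    have hn' : (n : ℤ) • t k = 0 := hn
    rcases Int.natAbs_eq (n : ℤ) with h1 | h1
    · rw [h1, natCast_zsmul] at hn'
      exact hn'
    · rw [h1, neg_smul, neg_eq_zero, natCast_zsmul] at hn'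
      exact hn'
  · have h1 : ∀ k, x k = ∑ l, a k l • e l + t k := fun k => by rw [ht]; simp
    calc ∑ k, x k ⊗ₜ[ℤ] y k = ∑ k, (∑ l, (e l ⊗ₜ[ℤ] (a k l • y k)) + t k ⊗ₜ[ℤ] y k) := by
          refine Finset.sum_congr rfl fun k _ => ?_
          conv_lhs => rw [h1 k]
          rw [TensorProduct.add_tmul, TensorProduct.sum_tmul]
          congr 1
          exact Finset.sum_congr rfl fun l _ => by rw [TensorProduct.smul_tmul]
      _ = _ := by
          rw [Finset.sum_add_distrib, Finset.sum_comm]
          congr 1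
          exact Finset.sum_congr rfl fun l _ => by rw [TensorProduct.tmul_sum]

end rep

section symm

variable {A B C : Type*} [CStarAlgebra A] [CStarAlgebra B] [CStarAlgebra C]
variable {i : A →⋆ₐ[ℂ] C} {j : B →⋆ₐ[ℂ] C}

theorem pim_comm (hc : ∀ a b, Commute (i a) (j b)) (z : B ⊗[ℂ] A) :
    pim i j (TensorProduct.comm ℂ B A z) = pim j i z := by
  induction z using TensorProduct.induction_on with
  | zero => simp
  | add z z' h h' => rw [map_add, map_add, map_add, h, h']
  | tmul b a => rw [TensorProduct.comm_tmul, pim_tmul, pim_tmul]; exact (hc a b).eq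

theorem IsTensor.symm (h : IsTensor i j) : IsTensor j i where
  comm b a := (h.comm a b).symm
  inj x y hxy := by
    apply (TensorProduct.comm ℂ B A).injective
    apply h.inj
    rw [pim_comm h.comm, pim_comm h.comm, hxy]
  dense := by
    have h1 : Set.range (pim i j) ⊆ Set.range (pim j i) := by
      rintro _ ⟨z, rfl⟩
      refine ⟨TensorProduct.comm ℂ A B z, ?_⟩
      have hc : ∀ b a, Commute (j b) (i a) := fun b a => (h.comm a b).symm
      exact pim_comm hc z
    exact h.dense.mono h1

theorem comm_mul (x y : A ⊗[ℂ] B) : TensorProduct.comm ℂ A B (x * y) =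
    TensorProduct.comm ℂ A B x * TensorProduct.comm ℂ A B y :=
  map_mul (Algebra.TensorProduct.comm ℂ A B) x y

theorem comm_star (x : A ⊗[ℂ] B) : TensorProduct.comm ℂ A B (star x) =
    star (TensorProduct.comm ℂ A B x) := by
  induction x using TensorProduct.induction_on with
  | zero => simp
  | add z z' h h' => rw [star_add, map_add, map_add, star_add, h, h']
  | tmul a b => rw [TensorProduct.star_tmul, TensorProduct.comm_tmul, TensorProduct.comm_tmul,
      TensorProduct.star_tmul]

theorem IsMax.symm (hc : ∀ a b, Commute (i a) (j b)) (h : IsMax i j) : IsMax j i := by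
  intro ν hν x
  have h1 : IsCStarSeminorm (fun z : A ⊗[ℂ] B => ν (TensorProduct.comm ℂ A B z)) :=
    { add_le := fun x y => by rw [map_add]; exact hν.add_le _ _
      smul := fun c x => by rw [map_smul]; exact hν.smul _ _
      mul_le := fun x y => by rw [comm_mul]; exact hν.mul_le _ _
      star_mul_self := fun x => by rw [comm_mul, comm_star]; exact hν.star_mul_self _ }
  have h2 := h _ h1 (TensorProduct.comm ℂ B A x)
  rw [pim_comm hc] at h2
  simpa using h2

theorem alpha₂_symm (hc : ∀ a b, Commute (i a) (j b)) (hc' : ∀ b a, Commute (j b) (i a))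
    (x : K0 A) (y : K0 B) : alpha₂ j i hc' y x = alpha₂ i j hc x y := by
  have key : ∀ {n m : ℕ} {p : Matrix (Fin n) (Fin n) A} {q : Matrix (Fin m) (Fin m) B}
      (hp : IsPr p) (hq : IsPr q),
      alpha₂ j i hc' (kc q hq) (kc p hp) = alpha₂ i j hc (kc p hp) (kc q hq) := by
    intro n m p q hp hq
    rw [alpha₂_kc, alpha₂_kc]
    unfold kc
    congr 1
    rw [cls_eq_iff]
    have h := MvN.submatrix (hq.kron hc' hp) (Equiv.prodComm (Fin n) (Fin m))
    convert h using 1
    ext x y
    exact (hc _ _).eq
  obtain ⟨n, p, hp, m, q, hq, rfl⟩ := x.exists_rep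
  obtain ⟨n', p', hp', m', q', hq', rfl⟩ := y.exists_rep
  simp only [map_sub, AddMonoidHom.sub_apply, key]
  abel

theorem alpha_symm (hc : ∀ a b, Commute (i a) (j b)) (hc' : ∀ b a, Commute (j b) (i a))
    {r : ℕ} (x : Fin r → K0 A) (y : Fin r → K0 B) :
    alpha j i hc' (∑ k, y k ⊗ₜ[ℤ] x k) = alpha i j hc (∑ k, x k ⊗ₜ[ℤ] y k) := by
  rw [map_sum, map_sum]
  exact Finset.sum_congr rfl fun k _ => by rw [alpha_tmul, alpha_tmul, alpha₂_symm hc hc']

end symm

end Pool.Agent.KU
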