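import Pool.Agent.helper95.KU.Gr

/-! # The Murray-von Neumann semigroup and the group `K₀` of a `*`-ring -/

set_option autoImplicit false

open Matrix Fintype

namespace Pool.Agent.KU

section basic

variable {A : Type*} [Ring A] [StarRing A]
variable {ι κ μ ν ι' κ' : Type*} [Fintype ι] [Fintype κ] [Fintype μ] [Fintype ν] [Fintype ι']
  [Fintype κ']

/-- A projection in the matrix algebra `M_ι(A)`. -/
def IsPr (p : Matrix ι ι A) : Prop := p * p = p ∧ pᴴ = p

/-- Murray-von Neumann equivalence of two square matrices of possibly different sizes. -/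
def MvN (p : Matrix ι ι A) (q : Matrix κ κ A) : Prop :=
  ∃ v : Matrix κ ι A, vᴴ * v = p ∧ v * vᴴ = q

theorem MvN.refl {p : Matrix ι ι A} (hp : IsPr p) : MvN p p :=
  ⟨p, by rw [hp.2, hp.1], by rw [hp.2, hp.1]⟩

theorem MvN.symm {p : Matrix ι ι A} {q : Matrix κ κ A} (h : MvN p q) : MvN q p := by
  obtain ⟨v, h1, h2⟩ := h
  exact ⟨vᴴ, by rw [conjTranspose_conjTranspose, h2], by rw [conjTranspose_conjTranspose, h1]⟩

theorem MvN.trans {p : Matrix ι ι A} {q : Matrix κ κ A} {r : Matrix μ μ A} (hp : IsPr p)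
    (hr : IsPr r) (h : MvN p q) (h' : MvN q r) : MvN p r := by
  obtain ⟨v, h1, h2⟩ := h
  obtain ⟨w, h3, h4⟩ := h'
  refine ⟨w * v, ?_, ?_⟩
  · rw [conjTranspose_mul]
    calc vᴴ * wᴴ * (w * v) = vᴴ * (wᴴ * w) * v := by simp only [Matrix.mul_assoc]
      _ = vᴴ * (v * vᴴ) * v := by rw [h3, h2]
      _ = (vᴴ * v) * (vᴴ * v) := by simp only [Matrix.mul_assoc]
      _ = p := by rw [h1, hp.1]
  · rw [conjTranspose_mul]
    calc w * v * (vᴴ * wᴴ) = w * (v * vᴴ) * wᴴ := by simp only [Matrix.mul_assoc]
      _ = w * (wᴴ * w) * wᴴ := by rw [h3, h2]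
      _ = (w * wᴴ) * (w * wᴴ) := by simp only [Matrix.mul_assoc]
      _ = r := by rw [h4, hr.1]

theorem IsPr.submatrix {p : Matrix ι ι A} (hp : IsPr p) (e : κ ≃ ι) :
    IsPr (p.submatrix e e) := by
  refine ⟨?_, ?_⟩
  · rw [Matrix.submatrix_mul_equiv, hp.1]
  · rw [conjTranspose_submatrix, hp.2]

theorem MvN.submatrix {p : Matrix ι ι A} (hp : IsPr p) (e : κ ≃ ι) :
    MvN p (p.submatrix e e) := by
  refine ⟨p.submatrix e id, ?_, ?_⟩
  · rw [conjTranspose_submatrix, hp.2, Matrix.submatrix_mul_equiv, hp.1, submatrix_id_id]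
  · rw [conjTranspose_submatrix, hp.2]
    have := Matrix.submatrix_mul_equiv p p e (Equiv.refl ι) e
    simpa [hp.1] using this

theorem IsPr.block {p : Matrix ι ι A} {q : Matrix κ κ A} (hp : IsPr p) (hq : IsPr q) :
    IsPr (fromBlocks p 0 0 q) := by
  refine ⟨?_, ?_⟩
  · rw [fromBlocks_multiply, hp.1, hq.1]; simp
  · rw [fromBlocks_conjTranspose, hp.2, hq.2]; simp

theorem MvN.block {p : Matrix ι ι A} {q : Matrix κ κ A} {p' : Matrix ι' ι' A}
    {q' : Matrix κ' κ' A} (h : MvN p p') (h' : MvN q q') :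
    MvN (fromBlocks p 0 0 q) (fromBlocks p' 0 0 q') := by
  obtain ⟨v, h1, h2⟩ := h
  obtain ⟨w, h3, h4⟩ := h'
  refine ⟨fromBlocks v 0 0 w, ?_, ?_⟩
  · rw [fromBlocks_conjTranspose, fromBlocks_multiply]; simp [h1, h3]
  · rw [fromBlocks_conjTranspose, fromBlocks_multiply]; simp [h2, h4]

theorem MvN.block_comm {p : Matrix ι ι A} {q : Matrix κ κ A} (hp : IsPr p) (hq : IsPr q) :
    MvN (fromBlocks p 0 0 q) (fromBlocks q 0 0 p) := by
  refine ⟨fromBlocks 0 q p 0, ?_, ?_⟩
  · rw [fromBlocks_conjTranspose, fromBlocks_multiply]; simp [hp.1, hp.2, hq.1, hq.2]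
  · rw [fromBlocks_conjTranspose, fromBlocks_multiply]; simp [hp.1, hp.2, hq.1, hq.2]

theorem MvN.block_zero {p : Matrix ι ι A} (hp : IsPr p) :
    MvN (fromBlocks p 0 0 (0 : Matrix κ κ A)) p := by
  refine ⟨fromCols p 0, ?_, ?_⟩
  · ext i j
    rcases i with i | i <;> rcases j with j | j
    · simp only [Matrix.mul_apply, conjTranspose_apply, fromCols_apply_inl, fromBlocks_apply₁₁]
      have := congrFun (congrFun hp.1 i) j
      rw [Matrix.mul_apply] at this
      rw [← this]
      refine Finset.sum_congr rfl fun x _ => ?_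
      have h2 := congrFun (congrFun hp.2 i) x
      rw [conjTranspose_apply] at h2
      rw [h2]
    · simp [Matrix.mul_apply]
    · simp [Matrix.mul_apply]
    · simp [Matrix.mul_apply]
  · ext i j
    simp only [Matrix.mul_apply, conjTranspose_apply, Fintype.sum_sum_type, fromCols_apply_inl,
      fromCols_apply_inr, Matrix.zero_apply, zero_mul, Finset.sum_const_zero, add_zero]
    have := congrFun (congrFun hp.1 i) j
    rw [Matrix.mul_apply] at this
    rw [← this]
    refine Finset.sum_congr rfl fun x _ => ?_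
    have h2 := congrFun (congrFun hp.2 x) j
    rw [conjTranspose_apply] at h2
    rw [h2]

end basic

section monoid

variable (A : Type*) [CStarAlgebra A]

/-- A projection in some matrix algebra `M_n(A)`. -/
structure Pr where
  n : ℕ
  mat : Matrix (Fin n) (Fin n) A
  isPr : IsPr mat

/-- Murray-von Neumann equivalence of projections in matrix algebras over `A`. -/
instance prSetoid : Setoid (Pr A) where
  r p q := MvN p.mat q.mat
  iseqv := {
    refl := fun p => MvN.refl p.isPr
    symm := fun h => h.symm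
    trans := fun {p _ r} h h' => h.trans p.isPr r.isPr h' }

/-- The set `V(A)` of equivalence classes of projections in the matrix algebras over `A`. -/
def V : Type _ := Quotient (prSetoid A)

variable {A}
variable {ι κ μ : Type*} [Fintype ι] [Fintype κ] [Fintype μ]

/-- The class of a representative. -/
def V.mk (p : Pr A) : V A := Quotient.mk (prSetoid A) p

theorem V.mk_eq {p q : Pr A} : V.mk p = V.mk q ↔ MvN p.mat q.mat := Quotient.eq

/-- The class of a projection in `M_ι(A)`, for a finite index type `ι`. -/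
noncomputable def cls (p : Matrix ι ι A) (hp : IsPr p) : V A :=
  V.mk ⟨card ι, p.submatrix (equivFin ι).symm (equivFin ι).symm,
    hp.submatrix (equivFin ι).symm⟩

theorem cls_eq_iff {p : Matrix ι ι A} {q : Matrix κ κ A} (hp : IsPr p) (hq : IsPr q) :
    cls p hp = cls q hq ↔ MvN p q := by
  unfold cls
  rw [V.mk_eq]
  have h1 := MvN.submatrix hp (equivFin ι).symm
  have h2 := MvN.submatrix hq (equivFin κ).symm
  constructor
  · intro h
    exact (h1.trans hp (hq.submatrix _) h).trans hp hq h2.symm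
  · intro h
    exact (h1.symm.trans (hp.submatrix _) hq h).trans (hp.submatrix _) (hq.submatrix _) h2

theorem cls_mk (p : Pr A) : cls p.mat p.isPr = V.mk p := by
  unfold cls
  rw [V.mk_eq]
  exact (MvN.submatrix p.isPr (equivFin (Fin p.n)).symm).symm

theorem V.exists_rep (x : V A) :
    ∃ (n : ℕ) (p : Matrix (Fin n) (Fin n) A) (hp : IsPr p), x = cls p hp := by
  obtain ⟨p, rfl⟩ := Quotient.exists_rep x
  exact ⟨p.n, p.mat, p.isPr, (cls_mk p).symm⟩

theorem isPr_zero : IsPr (0 : Matrix ι ι A) := ⟨by simp, by simp⟩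

noncomputable instance : Add (V A) where
  add := Quotient.map₂ (sa := prSetoid A) (sb := prSetoid A) (sc := prSetoid A)
    (fun p q => (⟨p.n + q.n, (fromBlocks p.mat 0 0 q.mat).submatrix finSumFinEquiv.symm
      finSumFinEquiv.symm, (p.isPr.block q.isPr).submatrix _⟩ : Pr A)) (by
      intro p p' h q q' h'
      change MvN p.mat p'.mat at h
      change MvN q.mat q'.mat at h'
      change MvN ((fromBlocks p.mat 0 0 q.mat).submatrix finSumFinEquiv.symm
        finSumFinEquiv.symm) ((fromBlocks p'.mat 0 0 q'.mat).submatrix finSumFinEquiv.symm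
        finSumFinEquiv.symm)
      have h1 := MvN.submatrix (p.isPr.block q.isPr) (finSumFinEquiv (m := p.n) (n := q.n)).symm
      have h2 := MvN.submatrix (p'.isPr.block q'.isPr)
        (finSumFinEquiv (m := p'.n) (n := q'.n)).symm
      have h3 := h.block h'
      exact (h1.symm.trans ((p.isPr.block q.isPr).submatrix _) (p'.isPr.block q'.isPr) h3).trans
        ((p.isPr.block q.isPr).submatrix _) ((p'.isPr.block q'.isPr).submatrix _) h2)

noncomputable instance : Zero (V A) where
  zero := cls (0 : Matrix (Fin 0) (Fin 0) A) isPr_zero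

theorem cls_add {p : Matrix ι ι A} {q : Matrix κ κ A} (hp : IsPr p) (hq : IsPr q) :
    cls p hp + cls q hq = cls (fromBlocks p 0 0 q) (hp.block hq) := by
  have h0 : cls p hp + cls q hq = cls (fromBlocks
      (p.submatrix (equivFin ι).symm (equivFin ι).symm) 0 0
      (q.submatrix (equivFin κ).symm (equivFin κ).symm)) ((hp.submatrix _).block
      (hq.submatrix _)) := by
    symm
    unfold cls
    apply Quotient.sound (s := prSetoid A)
    change MvN _ _
    have hb := (hp.submatrix (equivFin ι).symm).block (hq.submatrix (equivFin κ).symm)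
    exact ((MvN.submatrix hb _).symm).trans (hb.submatrix _) (hb.submatrix _)
      (MvN.submatrix hb _)
  rw [h0, cls_eq_iff]
  exact (MvN.submatrix hp _).symm.block (MvN.submatrix hq _).symm

theorem zero_def : (0 : V A) = cls (0 : Matrix (Fin 0) (Fin 0) A) isPr_zero := rfl

noncomputable instance : AddCommMonoid (V A) where
  add_assoc := by
    intro x y z
    obtain ⟨n, p, hp, rfl⟩ := x.exists_rep
    obtain ⟨m, q, hq, rfl⟩ := y.exists_rep
    obtain ⟨l, r, hr, rfl⟩ := z.exists_rep
    rw [cls_add, cls_add, cls_add, cls_add, cls_eq_iff]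
    have := MvN.submatrix ((hp.block hq).block hr) (Equiv.sumAssoc (Fin n) (Fin m) (Fin l)).symm
    convert this using 1
    ext i j
    rcases i with i | i | i <;> rcases j with j | j | j <;> simp
  zero_add := by
    intro x
    obtain ⟨n, p, hp, rfl⟩ := x.exists_rep
    rw [zero_def, cls_add, cls_eq_iff]
    exact (MvN.block_comm isPr_zero hp).trans (isPr_zero.block hp) hp (MvN.block_zero hp)
  add_zero := by
    intro x
    obtain ⟨n, p, hp, rfl⟩ := x.exists_rep
    rw [zero_def, cls_add, cls_eq_iff]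
    exact MvN.block_zero hp
  nsmul := nsmulRec
  add_comm := by
    intro x y
    obtain ⟨n, p, hp, rfl⟩ := x.exists_rep
    obtain ⟨m, q, hq, rfl⟩ := y.exists_rep
    rw [cls_add, cls_add, cls_eq_iff]
    exact MvN.block_comm hp hq

variable (A) in
/-- The group `K₀(A)` of a unital C*-algebra: the Grothendieck group of `V(A)`. -/
def K0 : Type _ := Algebra.GrothendieckAddGroup (V A)

noncomputable instance : AddCommGroup (K0 A) :=
  Algebra.GrothendieckAddGroup.instAddCommGroup (M := V A)

/-- The map `V(A) → K₀(A)`. -/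
noncomputable def K0.of : V A →+ K0 A :=
  Algebra.GrothendieckAddGroup.of (M := V A)

/-- The class of a projection in `K₀(A)`. -/
noncomputable def kc (p : Matrix ι ι A) (hp : IsPr p) : K0 A := K0.of (cls p hp)

/-- The homomorphism on `K₀(A)` induced by a homomorphism on `V(A)`. -/
noncomputable def K0.lift {G : Type*} [AddCommGroup G] (f : V A →+ G) : K0 A →+ G :=
  Algebra.GrothendieckAddGroup.lift (M := V A) f

theorem K0.lift_of {G : Type*} [AddCommGroup G] (f : V A →+ G) (x : V A) :
    K0.lift f (K0.of x) = f x :=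
  DFunLike.congr_fun ((Algebra.GrothendieckAddGroup.lift (M := V A) (G := G)).symm_apply_apply f) x

theorem K0.hom_ext {G : Type*} [AddCommGroup G] {f g : K0 A →+ G}
    (h : ∀ x : V A, f (K0.of x) = g (K0.of x)) : f = g := by
  apply (Algebra.GrothendieckAddGroup.lift (M := V A) (G := G)).symm.injective
  ext x
  exact h x

theorem K0.of_eq {x y : V A} (h : K0.of x = K0.of y) : ∃ t : V A, t + x = t + y := by
  obtain ⟨t, ht⟩ := (AddLocalization.addMonoidOf (⊤ : AddSubmonoid (V A))).exists_of_eq h
  exact ⟨t, ht⟩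

/-- Every element of `K₀(A)` is a difference of classes of projections. -/
theorem K0.exists_rep (x : K0 A) : ∃ (n : ℕ) (p : Matrix (Fin n) (Fin n) A) (hp : IsPr p)
    (m : ℕ) (q : Matrix (Fin m) (Fin m) A) (hq : IsPr q), x = kc p hp - kc q hq := by
  have key : ∃ a b : V A, x = K0.of a - K0.of b := by
    obtain ⟨y, hy⟩ : ∃ y : Algebra.GrothendieckAddGroup (V A), y = x := ⟨x, rfl⟩
    subst hy
    induction y using AddLocalization.ind with
    | H x =>
      refine ⟨x.1, x.2, ?_⟩
      rw [AddLocalization.mk_eq_addMonoidOf_mk']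
      rw [eq_sub_iff_add_eq]
      exact (AddLocalization.addMonoidOf (⊤ : AddSubmonoid (V A))).mk'_spec x.1 x.2
  obtain ⟨a, b, hab⟩ := key
  obtain ⟨n, p, hp, h1⟩ := a.exists_rep
  obtain ⟨m, q, hq, h2⟩ := b.exists_rep
  refine ⟨n, p, hp, m, q, hq, ?_⟩
  unfold kc
  rw [← h1, ← h2, hab]

end monoid

end Pool.Agent.KU
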