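import Pool.Agent.helper95.KU.Asym
import Pool.Agent.helper95.KU.Alg

/-! # Asymptotic values of classes of the tensor product -/

set_option autoImplicit false

open Matrix Fintype Filter Topology
open scoped TensorProduct

namespace Pool.Agent.KU

universe u v w

section val

variable {A B C : Type u} [CStarAlgebra A] [CStarAlgebra B] [CStarAlgebra C]
variable {D : ℕ → Type v} {F : ℕ → Type w} [∀ n, CStarAlgebra (D n)] [∀ n, CStarAlgebra (F n)]
variable {φ : ∀ n, A →ₗ[ℂ] D n} {i : ∀ n, D n →⋆ₐ[ℂ] F n} {j : ∀ n, B →⋆ₐ[ℂ] F n}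
variable {i' : A →⋆ₐ[ℂ] C} {j' : B →⋆ₐ[ℂ] C}

theorem tendsto_norm_add {f g : ∀ n, F n} (hf : Tendsto (fun n => ‖f n‖) atTop (𝓝 0))
    (hg : Tendsto (fun n => ‖g n‖) atTop (𝓝 0)) :
    Tendsto (fun n => ‖f n + g n‖) atTop (𝓝 0) :=
  squeeze_zero (fun n => norm_nonneg _) (fun n => norm_add_le _ _) (by simpa using hf.add hg)

theorem tendsto_norm_sum {σ : Type*} (s : Finset σ) {f : σ → ∀ n, F n}
    (hf : ∀ c ∈ s, Tendsto (fun n => ‖f c n‖) atTop (𝓝 0)) :
    Tendsto (fun n => ‖∑ c ∈ s, f c n‖) atTop (𝓝 0) := by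
  refine squeeze_zero (fun n => norm_nonneg _) (fun n => norm_sum_le _ _) ?_
  simpa using tendsto_finset_sum s hf

theorem Tn_star_mul (hφ : IsAsymHom φ) (hc : ∀ n d b, Commute (i n d) (j n b))
    (x y : A ⊗[ℂ] B) : Tendsto (fun n => ‖star (Tn φ i j n x) * Tn φ i j n y -
      Tn φ i j n (star x * y)‖) atTop (𝓝 0) := by
  obtain ⟨K, hK⟩ := Tn_bdd (i := i) (j := j) hφ y
  have h1 := (Tn_star (i := i) (j := j) hφ hc x).mul_const K
  rw [zero_mul] at h1
  have h2 := Tn_mul (i := i) (j := j) hφ hc (star x) y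
  have h3 : Tendsto (fun n => ‖(-(Tn φ i j n (star x) - star (Tn φ i j n x)) * Tn φ i j n y) +
      -(Tn φ i j n (star x * y) - Tn φ i j n (star x) * Tn φ i j n y)‖) atTop (𝓝 0) := by
    apply tendsto_norm_add
    · refine squeeze_zero (fun n => norm_nonneg _) (fun n => ?_) h1
      refine (norm_mul_le _ _).trans ?_
      rw [norm_neg]
      exact mul_le_mul_of_nonneg_left (hK n) (norm_nonneg _)
    · refine h2.congr fun n => ?_
      rw [norm_neg]
  refine h3.congr fun n => ?_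
  congr 1
  noncomm_ring

theorem Tn_mul_star (hφ : IsAsymHom φ) (hc : ∀ n d b, Commute (i n d) (j n b))
    (x y : A ⊗[ℂ] B) : Tendsto (fun n => ‖Tn φ i j n x * star (Tn φ i j n y) -
      Tn φ i j n (x * star y)‖) atTop (𝓝 0) := by
  obtain ⟨K, hK⟩ := Tn_bdd (i := i) (j := j) hφ x
  have h1 := (Tn_star (i := i) (j := j) hφ hc y).const_mul K
  rw [mul_zero] at h1
  have h2 := Tn_mul (i := i) (j := j) hφ hc x (star y)
  have h3 : Tendsto (fun n => ‖(-(Tn φ i j n x * (Tn φ i j n (star y) - star (Tn φ i j n y)))) +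
      -(Tn φ i j n (x * star y) - Tn φ i j n x * Tn φ i j n (star y))‖) atTop (𝓝 0) := by
    apply tendsto_norm_add
    · refine squeeze_zero (fun n => norm_nonneg _) (fun n => ?_) h1
      rw [norm_neg]
      refine (norm_mul_le _ _).trans ?_
      exact mul_le_mul_of_nonneg_right (hK n) (norm_nonneg _)
    · refine h2.congr fun n => ?_
      rw [norm_neg]
  refine h3.congr fun n => ?_
  congr 1
  noncomm_ring

/-- Comparison of two asymptotic values which are close in `C`. -/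
theorem entry_ev (hmax : IsMax i' j')
    (hφ : IsAsymHom φ) (hc : ∀ n d b, Commute (i n d) (j n b)) {s0 x0 : A ⊗[ℂ] B} {η : ℝ}
    (hη : 0 < η) (hsx : ‖pim i' j' s0 - pim i' j' x0‖ < η) {s e : ∀ n, F n}
    (hs : Tendsto (fun n => ‖s n - Tn φ i j n s0‖) atTop (𝓝 0))
    (he : Tendsto (fun n => ‖e n - Tn φ i j n x0‖) atTop (𝓝 0)) :
    ∀ᶠ n in atTop, ‖s n - e n‖ ≤ 4 * η := by
  have h1 := Tn_dom (i := i) (j := j) hmax hφ hc (s0 - x0) hη
  have h2 : ∀ᶠ n in atTop, ‖s n - Tn φ i j n s0‖ < η := (tendsto_order.1 hs).2 η hη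
  have h3 : ∀ᶠ n in atTop, ‖e n - Tn φ i j n x0‖ < η := (tendsto_order.1 he).2 η hη
  filter_upwards [h1, h2, h3] with n k1 k2 k3
  rw [map_sub, map_sub] at k1
  have e1 : s n - e n = (s n - Tn φ i j n s0) + ((Tn φ i j n s0 - Tn φ i j n x0) -
      (e n - Tn φ i j n x0)) := by abel
  rw [e1]
  have k4 := norm_add_le (s n - Tn φ i j n s0) ((Tn φ i j n s0 - Tn φ i j n x0) -
      (e n - Tn φ i j n x0))
  have k5 := norm_sub_le (Tn φ i j n s0 - Tn φ i j n x0) (e n - Tn φ i j n x0)
  linarith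

/-- Murray-von Neumann equivalence in `C` of two projections over the algebraic tensor product
implies equivalence of their asymptotic values. -/
theorem eventually_mvn (ht : IsTensor i' j')
    (hmax : IsMax i' j')
    (hφ : IsAsymHom φ) (hc : ∀ n d b, Commute (i n d) (j n b))
    {ι κ : Type} [Fintype ι] [DecidableEq ι] [Fintype κ] [DecidableEq κ]
    {X : Matrix ι ι (A ⊗[ℂ] B)} {X' : Matrix κ κ (A ⊗[ℂ] B)}
    (h : MvN (X.map (pim i' j')) (X'.map (pim i' j')))
    {e : ∀ n, Matrix ι ι (F n)} (he : ∀ n, IsPr (e n))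
    (hce : ∀ a b, Tendsto (fun n => ‖e n a b - Tn φ i j n (X a b)‖) atTop (𝓝 0))
    {f : ∀ n, Matrix κ κ (F n)} (hf : ∀ n, IsPr (f n))
    (hcf : ∀ a b, Tendsto (fun n => ‖f n a b - Tn φ i j n (X' a b)‖) atTop (𝓝 0)) :
    ∀ᶠ n in atTop, MvN (e n) (f n) := by
  obtain ⟨v, hv1, hv2⟩ := h
  set N : ℝ := (Fintype.card ι : ℝ) with hN
  set M : ℝ := (Fintype.card κ : ℝ) with hM
  have hN0 : 0 ≤ N := Nat.cast_nonneg _
  have hM0 : 0 ≤ M := Nat.cast_nonneg _
  set η : ℝ := 1 / (40 * (N * N + M * M + 1)) with hηd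
  have hη : 0 < η := by positivity
  have hη1 : N * (N * (4 * η)) ≤ 1 / 10 := by
    rw [hηd]
    have : N * (N * (4 * (1 / (40 * (N * N + M * M + 1))))) =
        (N * N) / (N * N + M * M + 1) * (1 / 10) := by field_simp; ring
    rw [this]
    have h1 : (N * N) / (N * N + M * M + 1) ≤ 1 := by
      rw [div_le_one (by positivity)]
      nlinarith
    linarith
  have hη2 : M * (M * (4 * η)) ≤ 1 / 10 := by
    rw [hηd]
    have : M * (M * (4 * (1 / (40 * (N * N + M * M + 1))))) =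
        (M * M) / (N * N + M * M + 1) * (1 / 10) := by field_simp; ring
    rw [this]
    have h1 : (M * M) / (N * N + M * M + 1) ≤ 1 := by
      rw [div_le_one (by positivity)]
      nlinarith
    linarith
  -- approximation of `v`
  obtain ⟨w, hw1, hw2⟩ : ∃ w : κ → ι → A ⊗[ℂ] B,
      (∀ a b, ‖(∑ c, star (pim i' j' (w c a)) * pim i' j' (w c b)) - pim i' j' (X a b)‖ < η) ∧
      (∀ c d, ‖(∑ a, pim i' j' (w c a) * star (pim i' j' (w d a))) - pim i' j' (X' c d)‖ < η) := by
    have hd : DenseRange (Pi.map fun _ : κ => (Pi.map fun _ : ι => (pim i' j' :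
        A ⊗[ℂ] B → C))) := DenseRange.piMap fun _ => DenseRange.piMap fun _ => ht.dense
    set U : Set (κ → ι → C) := (⋂ a : ι, ⋂ b : ι,
        {y | ‖(∑ c, star (y c a) * y c b) - pim i' j' (X a b)‖ < η}) ∩
        (⋂ c : κ, ⋂ d : κ, {y | ‖(∑ a, y c a * star (y d a)) - pim i' j' (X' c d)‖ < η}) with hU
    have hUo : IsOpen U := by
      apply IsOpen.inter
      · refine isOpen_iInter_of_finite fun a => isOpen_iInter_of_finite fun b => ?_
        exact isOpen_lt (by fun_prop) continuous_const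
      · refine isOpen_iInter_of_finite fun c => isOpen_iInter_of_finite fun d => ?_
        exact isOpen_lt (by fun_prop) continuous_const
    have hvU : (fun c a => v c a) ∈ U := by
      refine ⟨?_, ?_⟩
      · simp only [Set.mem_iInter, Set.mem_setOf_eq]
        intro a b
        have := congrFun (congrFun hv1 a) b
        rw [Matrix.mul_apply] at this
        simp only [conjTranspose_apply, Matrix.map_apply] at this
        rw [this, sub_self, norm_zero]
        exact hη
      · simp only [Set.mem_iInter, Set.mem_setOf_eq]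
        intro c d
        have := congrFun (congrFun hv2 c) d
        rw [Matrix.mul_apply] at this
        simp only [conjTranspose_apply, Matrix.map_apply] at this
        rw [this, sub_self, norm_zero]
        exact hη
    obtain ⟨w, hw⟩ := hd.exists_mem_open hUo ⟨_, hvU⟩
    refine ⟨w, fun a b => ?_, fun c d => ?_⟩
    · have := hw.1
      simp only [Set.mem_iInter, Set.mem_setOf_eq, Pi.map_apply] at this
      exact this a b
    · have := hw.2
      simp only [Set.mem_iInter, Set.mem_setOf_eq, Pi.map_apply] at this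
      exact this c d
  set W : ∀ n, Matrix κ ι (F n) := fun n => Matrix.of fun c a => Tn φ i j n (w c a) with hW
  have hmul := fun x y => pim_mul ht.comm x y
  have hstar := fun x => pim_star ht.comm x
  have k1 : ∀ a b, ∀ᶠ n in atTop, ‖((W n)ᴴ * W n - e n) a b‖ ≤ 4 * η := by
    intro a b
    have h1 := entry_ev (i := i) (j := j) (F := F) hmax hφ hc (s0 := ∑ c, star (w c a) * w c b)
      (x0 := X a b) hη (by
        rw [map_sum]
        simp only [hmul, hstar]
        exact hw1 a b) (s := fun n => ∑ c, star (Tn φ i j n (w c a)) * Tn φ i j n (w c b))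
      (e := fun n => e n a b) (by
        have := tendsto_norm_sum (F := F) Finset.univ (f := fun c n => star (Tn φ i j n (w c a)) *
          Tn φ i j n (w c b) - Tn φ i j n (star (w c a) * w c b))
          (fun c _ => Tn_star_mul hφ hc (w c a) (w c b))
        refine this.congr fun n => ?_
        rw [Finset.sum_sub_distrib, map_sum]) (hce a b)
    refine h1.mono fun n hn => ?_
    rw [Matrix.sub_apply, Matrix.mul_apply]
    simpa [hW, conjTranspose_apply] using hn
  have k2 : ∀ c d, ∀ᶠ n in atTop, ‖(W n * (W n)ᴴ - f n) c d‖ ≤ 4 * η := by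
    intro c d
    have h1 := entry_ev (i := i) (j := j) (F := F) hmax hφ hc (s0 := ∑ a, w c a * star (w d a))
      (x0 := X' c d) hη (by
        rw [map_sum]
        simp only [hmul, hstar]
        exact hw2 c d) (s := fun n => ∑ a, Tn φ i j n (w c a) * star (Tn φ i j n (w d a)))
      (e := fun n => f n c d) (by
        have := tendsto_norm_sum (F := F) Finset.univ (f := fun a n => Tn φ i j n (w c a) *
          star (Tn φ i j n (w d a)) - Tn φ i j n (w c a * star (w d a)))
          (fun a _ => Tn_mul_star hφ hc (w c a) (w d a))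
        refine this.congr fun n => ?_
        rw [Finset.sum_sub_distrib, map_sum]) (hcf c d)
    refine h1.mono fun n hn => ?_
    rw [Matrix.sub_apply, Matrix.mul_apply]
    simpa [hW, conjTranspose_apply] using hn
  have k3 : ∀ᶠ n in atTop, ∀ a b, ‖((W n)ᴴ * W n - e n) a b‖ ≤ 4 * η :=
    eventually_all.2 fun a => eventually_all.2 fun b => k1 a b
  have k4 : ∀ᶠ n in atTop, ∀ c d, ‖(W n * (W n)ᴴ - f n) c d‖ ≤ 4 * η :=
    eventually_all.2 fun a => eventually_all.2 fun b => k2 a b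
  filter_upwards [k3, k4] with n h3 h4
  apply mvn_of_near (he n) (hf n) (w := W n)
  · calc ∑ a, ∑ b, ‖((W n)ᴴ * W n - e n) a b‖ ≤ ∑ a : ι, ∑ b : ι, 4 * η :=
          Finset.sum_le_sum fun a _ => Finset.sum_le_sum fun b _ => h3 a b
      _ = N * (N * (4 * η)) := by simp [hN]
      _ ≤ 1 / 10 := hη1
  · calc ∑ a, ∑ b, ‖(W n * (W n)ᴴ - f n) a b‖ ≤ ∑ a : κ, ∑ b : κ, 4 * η :=
          Finset.sum_le_sum fun a _ => Finset.sum_le_sum fun b _ => h4 a b
      _ = M * (M * (4 * η)) := by simp [hM]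
      _ ≤ 1 / 10 := hη2

/-- The class `c ∈ V(C)` has the asymptotic value `g n ∈ K₀(F n)`. -/
def Val (i' : A →⋆ₐ[ℂ] C) (j' : B →⋆ₐ[ℂ] C) (φ : ∀ n, A →ₗ[ℂ] D n) (i : ∀ n, D n →⋆ₐ[ℂ] F n)
    (j : ∀ n, B →⋆ₐ[ℂ] F n) (c : V C) (g : ∀ n, K0 (F n)) : Prop :=
  ∃ (ι : Type) (_ : Fintype ι) (_ : DecidableEq ι) (X : Matrix ι ι (A ⊗[ℂ] B))
    (hX : IsPr (X.map (pim i' j'))) (e : ∀ n, Matrix ι ι (F n)) (he : ∀ n, IsPr (e n)),
    c = cls (X.map (pim i' j')) hX ∧
    (∀ a b, Tendsto (fun n => ‖e n a b - Tn φ i j n (X a b)‖) atTop (𝓝 0)) ∧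
    ∀ n, g n = kc (e n) (he n)

theorem Val.unique (ht : IsTensor i' j')
    (hmax : IsMax i' j')
    (hφ : IsAsymHom φ) (hc : ∀ n d b, Commute (i n d) (j n b)) {c : V C} {g g' : ∀ n, K0 (F n)}
    (h : Val i' j' φ i j c g) (h' : Val i' j' φ i j c g') : ∀ᶠ n in atTop, g n = g' n := by
  obtain ⟨ι, _, _, X, hX, e, he, h1, h2, h3⟩ := h
  obtain ⟨κ, _, _, X', hX', f, hf, h4, h5, h6⟩ := h'
  rw [h1, cls_eq_iff] at h4
  filter_upwards [eventually_mvn ht hmax hφ hc h4 he h2 hf h5] with n hn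
  rw [h3 n, h6 n]
  unfold kc
  rw [(cls_eq_iff (he n) (hf n)).2 hn]

theorem Val.add {c c' : V C} {g g' : ∀ n, K0 (F n)}
    (h : Val i' j' φ i j c g) (h' : Val i' j' φ i j c' g') :
    Val i' j' φ i j (c + c') (fun n => g n + g' n) := by
  obtain ⟨ι, _, _, X, hX, e, he, h1, h2, h3⟩ := h
  obtain ⟨κ, _, _, X', hX', f, hf, h4, h5, h6⟩ := h'
  have hmap : (fromBlocks X 0 0 X').map (pim i' j') =
      fromBlocks (X.map (pim i' j')) 0 0 (X'.map (pim i' j')) := by
    ext a b
    rcases a with a | a <;> rcases b with b | b <;> simp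
  refine ⟨ι ⊕ κ, inferInstance, inferInstance, fromBlocks X 0 0 X', ?_,
    fun n => fromBlocks (e n) 0 0 (f n), fun n => (he n).block (hf n), ?_, ?_, ?_⟩
  · rw [hmap]; exact hX.block hX'
  · rw [h1, h4, cls_add]
    simp only [hmap]
  · intro a b
    rcases a with a | a <;> rcases b with b | b
    · simpa using h2 a b
    · simp
    · simp
    · simpa using h5 a b
  · intro n
    change g n + g' n = kc (fromBlocks (e n) 0 0 (f n)) _
    rw [h3 n, h6 n]
    unfold kc
    rw [← cls_add (he n) (hf n), map_add]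

theorem Val.zero : Val i' j' φ i j 0 (fun _ => 0) := by
  have hX : IsPr ((0 : Matrix (Fin 0) (Fin 0) (A ⊗[ℂ] B)).map (pim i' j')) := by
    refine ⟨?_, ?_⟩ <;> (ext a; exact a.elim0)
  refine ⟨Fin 0, inferInstance, inferInstance, 0, hX, fun _ => 0, fun _ => isPr_zero, ?_,
    ?_, ?_⟩
  · rw [zero_def]
    exact (cls_eq_iff isPr_zero hX).2 ⟨0, by ext a; exact a.elim0, by ext a; exact a.elim0⟩
  · intro a; exact a.elim0
  · intro n
    unfold kc
    rw [← zero_def, map_zero]

theorem Val.sum {σ : Type*} (s : Finset σ) {c : σ → V C} {g : σ → ∀ n, K0 (F n)}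
    (h : ∀ k ∈ s, Val i' j' φ i j (c k) (g k)) :
    Val i' j' φ i j (∑ k ∈ s, c k) (fun n => ∑ k ∈ s, g k n) := by
  classical
  induction s using Finset.induction_on with
  | empty => simpa using Val.zero
  | insert a s ha ih =>
    have h1 := (h a (Finset.mem_insert_self a s)).add
      (ih fun k hk => h k (Finset.mem_insert_of_mem hk))
    simpa [Finset.sum_insert ha] using h1

/-- The value of a product of classes. -/
theorem Val.prod (hc' : ∀ a b, Commute (i' a) (j' b)) (hc : ∀ n d b, Commute (i n d) (j n b))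
    {ι κ : Type} [Fintype ι] [DecidableEq ι] [Fintype κ] [DecidableEq κ]
    {p : Matrix ι ι A} (hp : IsPr p) {q : Matrix κ κ B} (hq : IsPr q)
    {e : ∀ n, Matrix ι ι (D n)} (he : ∀ n, IsPr (e n))
    (hce : ∀ a b, Tendsto (fun n => ‖e n a b - φ n (p a b)‖) atTop (𝓝 0)) :
    Val i' j' φ i j (prodV i' j' hc' (cls p hp) (cls q hq))
      (fun n => alpha₂ (i n) (j n) (hc n) (kc (e n) (he n)) (kc q hq)) := by
  have hmap : (Matrix.of fun x y : ι × κ => p x.1 y.1 ⊗ₜ[ℂ] q x.2 y.2).map (pim i' j') =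
      kron i' j' p q := by
    ext x y
    rw [Matrix.map_apply, Matrix.of_apply, pim_tmul, kron_apply]
  refine ⟨ι × κ, inferInstance, inferInstance,
    Matrix.of fun x y => p x.1 y.1 ⊗ₜ[ℂ] q x.2 y.2, ?_,
    fun n => kron (i n) (j n) (e n) q, fun n => (he n).kron (hc n) hq, ?_, ?_, ?_⟩
  · rw [hmap]; exact hp.kron hc' hq
  · rw [prodV_cls]
    simp only [hmap]
  · intro x y
    have h1 := (hce x.1 y.1).mul_const (‖q x.2 y.2‖)
    rw [zero_mul] at h1
    refine squeeze_zero (fun n => norm_nonneg _) (fun n => ?_) h1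
    change ‖i n (e n x.1 y.1) * j n (q x.2 y.2) - Tn φ i j n (p x.1 y.1 ⊗ₜ[ℂ] q x.2 y.2)‖ ≤ _
    rw [Tn_tmul, ← sub_mul, ← map_sub]
    exact (norm_mul_le _ _).trans (mul_le_mul (norm_i_le _ _) (norm_i_le _ _) (norm_nonneg _)
      (norm_nonneg _))
  · intro n
    exact alpha₂_kc (i n) (j n) (hc n) (he n) hq

end val

end Pool.Agent.KU
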